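import Mathlib
import Pool.Agent.L0h74.T3.BAD
import Pool.Agent.L0h74.E3.HAL

/-! # E3-BAD: few sets have degenerate labels (after `Pool/Agent/L0h74/EV/BAD.lean`) -/

set_option autoImplicit false
set_option linter.unusedVariables false

open scoped Classical

namespace Pool.Agent.L0h74.E3.BAD

open Finset
open Pool.Agent.Y699.E (sum_le_inj)
open Pool.Agent.Y703.CX (sm la jj XX eL zz kk S_SIE)
open Pool.Agent.L0h74.T3 (Pr m3 ty SA Nd)
open Pool.Agent.L0h74.T3.HAL (Sp sp_of)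
open Pool.Agent.L0h74.E3 (n2 NdE)
open Pool.Agent.L0h74.E3.HAL (HD)
open Pool.Agent.Y703.CQ (nr sg)
open Pool.Agent.Y37.CX (ev_pow Pm Pm_nonneg Pm_mono Pm_le)
open Pool.Agent.L0h74.T3.BAD (In Tw pr1 NI prod_pos_of prod_sub_le sub_range In.ne sum_NI mer params)

/-- the family of the possible large parts -/
noncomputable def fam (W : Finset ℕ) (Y : ℕ) : Finset (Finset ℕ) :=
  (range (Y + 1)).powerset.filter fun T =>
    (∀ p ∈ T, (Tw p ∧ p ∉ W ∧ ∑ u ∈ W, nr p u + n2 p = 0) ∨ In p) ∧ ∏ p ∈ T, p ≤ Y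

/-- the logarithmic sum over the family -/
lemma fam_sum (W : Finset ℕ) (Y : ℕ) :
    ∑ T ∈ fam W Y, (1 : ℝ) / ((∏ p ∈ T, p : ℕ) : ℝ) ≤
      (∑ S ∈ HD W Y, (1 : ℝ) / ((∏ p ∈ S, p : ℕ) : ℝ)) *
        ∑ T ∈ (NI Y).powerset, (1 : ℝ) / ((∏ p ∈ T, p : ℕ) : ℝ) := by
  rw [sum_mul_sum, ← sum_product' (f := fun S T => (1 : ℝ) / ((∏ p ∈ S, p : ℕ) : ℝ) *
    ((1 : ℝ) / ((∏ p ∈ T, p : ℕ) : ℝ)))]
  have hpr : ∀ T ∈ fam W Y, ∀ p ∈ T, p.Prime := by
    intro T hT p hp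
    rw [fam, mem_filter] at hT
    rcases hT.2.1 p hp with h | h
    · exact h.1.1.1
    · exact h.1.1
  refine sum_le_inj (fun T => (T.filter (fun p => ty p = 2), T.filter (fun p => ¬ ty p = 2)))
    ?_ ?_ ?_ ?_
  · intro T hT
    have hp0 := hpr T hT
    rw [fam, mem_filter, mem_powerset] at hT
    obtain ⟨h1, h2, h3⟩ := hT
    rw [mem_product]
    refine ⟨?_, ?_⟩
    · rw [HD, mem_filter, mem_powerset]
      refine ⟨(filter_subset _ _).trans h1, fun p hp => ?_,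
        (prod_sub_le (filter_subset _ _) hp0).trans h3⟩
      obtain ⟨k1, k2⟩ := mem_filter.1 hp
      rcases h2 p k1 with h | h
      · exact ⟨h.1.1, h.1.2, h.2.1, h.2.2⟩
      · exact absurd k2 (In.ne h)
    · rw [mem_powerset]
      intro p hp
      obtain ⟨k1, k2⟩ := mem_filter.1 hp
      rw [NI, mem_filter]
      refine ⟨h1 k1, ?_⟩
      rcases h2 p k1 with h | h
      · exact absurd h.1.2 k2
      · exact h
  · intro S hS T hT h
    simp only [Prod.mk.injEq] at h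
    rw [← filter_union_filter_not_eq (fun p => ty p = 2) S,
      ← filter_union_filter_not_eq (fun p => ty p = 2) T, h.1, h.2]
  · intro T hT
    apply le_of_eq
    have e1 : ∏ p ∈ T, p = (∏ p ∈ T.filter (fun p => ty p = 2), p) *
        ∏ p ∈ T.filter (fun p => ¬ ty p = 2), p :=
      (prod_filter_mul_prod_filter_not T (fun p => ty p = 2) _).symm
    simp only
    rw [e1]
    push_cast
    rw [one_div_mul_one_div]
  · intro x _
    positivity

/-- the size of the family -/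
lemma fam_card {C₁ C₂ : ℝ} (h11 : 1 ≤ C₁)
    (hSIE : ∀ (Y : ℕ) (L : Finset (Finset ℕ)), 1 ≤ Y →
      (∀ S ∈ L, (∀ p ∈ S, p.Prime) ∧ ∏ p ∈ S, p ≤ Y) → (∀ S ∈ L, ∀ T, T ⊆ S → T ∈ L) →
      (L.card : ℝ) * Real.log Y ≤ C₁ * Y * ∑ S ∈ L, (1 : ℝ) / ((∏ p ∈ S, p : ℕ) : ℝ))
    (h21 : 1 ≤ C₂)
    (hHAL : ∀ (W : Finset ℕ) (T : ℕ), (∀ u ∈ W, Pr u) → 2 ≤ T →
      ∑ S ∈ HD W T, (1 : ℝ) / ((∏ p ∈ S, p : ℕ) : ℝ) ≤
        C₂ * (Real.log (8 * ((∏ u ∈ W, u : ℕ) : ℝ))) ^ (1 / 2 : ℝ) * (Real.log T) ^ (1 / 8 : ℝ))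
    {W : Finset ℕ} (hW1 : ∀ u ∈ W, Pr u) {Y : ℕ} (hY : 2 ≤ Y) :
    ((fam W Y).card : ℝ) * Real.log Y ≤ C₁ * Y *
      ((C₂ * (Real.log (8 * ((∏ u ∈ W, u : ℕ) : ℝ))) ^ (1 / 2 : ℝ) *
        (Real.log Y) ^ (1 / 8 : ℝ)) *
        Real.exp (∑ r ∈ NI Y, (1 : ℝ) / r)) := by
  have h1 := hSIE Y (fam W Y) (by omega) (by
    intro S hS
    rw [fam, mem_filter] at hS
    refine ⟨fun p hp => ?_, hS.2.2⟩
    rcases hS.2.1 p hp with h | h
    · exact h.1.1.1
    · exact h.1.1) (by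
    intro S hS T hTS
    rw [fam, mem_filter, mem_powerset] at hS ⊢
    obtain ⟨h1, h2, h3⟩ := hS
    refine ⟨hTS.trans h1, fun p hp => h2 p (hTS hp), ?_⟩
    refine (prod_sub_le hTS fun p hp => ?_).trans h3
    rcases h2 p hp with h | h
    · exact h.1.1.1
    · exact h.1.1)
  refine h1.trans (mul_le_mul_of_nonneg_left ((fam_sum W Y).trans ?_) (by positivity))
  have h2 := hHAL W Y hW1 hY
  have h3 := sum_NI Y
  have h4 : 0 ≤ ∑ T ∈ (NI Y).powerset, (1 : ℝ) / ((∏ p ∈ T, p : ℕ) : ℝ) :=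
    sum_nonneg fun _ _ => by positivity
  have h5 : 0 ≤ ∑ S ∈ HD W Y, (1 : ℝ) / ((∏ p ∈ S, p : ℕ) : ℝ) :=
    sum_nonneg fun _ _ => by positivity
  exact mul_le_mul h2 h3 h4 (h5.trans h2)

/-! ### degenerate labels -/

/-- the labels are degenerate with a symbol of two -/
def Bd (S T : Finset ℕ) : Prop :=
  ∃ W : Finset ℕ, W ⊆ S ∧ ∀ p ∈ T, ty p = 2 → ∑ u ∈ W, nr p u + n2 p = 0

lemma notNd {S T : Finset ℕ} (h : ¬ NdE S T) : ¬ Nd S T ∨ Bd S T := by
  unfold NdE at h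
  push Not at h
  obtain ⟨w, c, hw, h2⟩ := h
  have key : ∀ a : ZMod 2, a = 0 ∨ a = 1 := by decide
  rcases key c with hc | hc
  · left
    intro h3
    rcases hw with hw | hw
    · obtain ⟨p, hp, hp2, hp3⟩ := h3 w hw
      apply hp3
      have := h2 p hp hp2
      rwa [hc, zero_mul, add_zero] at this
    · exact hw hc
  · right
    refine ⟨S.filter fun u => w u ≠ 0, filter_subset _ _, ?_⟩
    intro p hp hp1
    have h4 := h2 p hp hp1
    rw [hc, one_mul] at h4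
    refine Eq.trans ?_ h4
    congr 1
    rw [sum_filter]
    refine sum_congr rfl fun u _ => ?_
    rcases key (w u) with h | h
    · rw [h]
      simp
    · rw [h]
      simp

/-- the number of sets with given small part -/
lemma fiber (X z : ℕ) {S₀ : Finset ℕ} (hS₀ : ∀ u ∈ S₀, Pr u) :
    ((SA X).filter fun S => Bd (sm z S) (la z S) ∧ sm z S = S₀).card ≤
      ∑ W ∈ S₀.powerset, (fam W (X / ∏ p ∈ S₀, p)).card := by
  refine le_trans ?_ Finset.card_biUnion_le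
  apply Finset.card_le_card_of_injOn (fun S => la z S)
  · intro S hS
    rw [mem_coe, mem_filter, SA, mem_filter, mem_powerset] at hS
    obtain ⟨⟨h1, h2, h4⟩, h5, h6⟩ := hS
    have hpr : ∀ p ∈ S, p.Prime := fun p hp => (h2 p hp).1
    obtain ⟨W, hWS, h7⟩ := h5
    have hWS : W ⊆ S₀ := by rw [← h6]; exact hWS
    rw [mem_coe, mem_biUnion]
    refine ⟨W, ?_, ?_⟩
    · rw [mem_powerset]
      exact hWS
    · rw [fam, mem_filter, mem_powerset]
      have hN : 0 < ∏ p ∈ S₀, p := prod_pos_of fun p hp => (hS₀ p hp).1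
      have hprod : ∏ p ∈ la z S, p ≤ X / ∏ p ∈ S₀, p := by
        rw [Nat.le_div_iff_mul_le hN, mul_comm, ← h6]
        have : (∏ p ∈ sm z S, p) * ∏ p ∈ la z S, p = ∏ p ∈ S, p :=
          prod_filter_mul_prod_filter_not _ _ _
        rw [this]
        exact h4
      refine ⟨sub_range (fun p hp => hpr p (mem_filter.1 hp).1) hprod, ?_, hprod⟩
      intro p hp
      rcases pr1 (h2 p (mem_filter.1 hp).1) with h | h
      · left
        refine ⟨h, fun hpW => ?_, h7 p hp h.2⟩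
        have h8 := hWS hpW
        rw [← h6, sm, mem_filter] at h8
        exact (mem_filter.1 hp).2 h8.2
      · exact Or.inr h
  · intro S hS T hT h
    rw [mem_coe, mem_filter] at hS hT
    simp only at h
    have key : ∀ S : Finset ℕ, sm z S ∪ la z S = S := fun S => filter_union_filter_not_eq _ _
    rw [← key S, ← key T, hS.2.2, hT.2.2, h]

theorem bad_log (hSIE : S_SIE) :
    ∃ (C : ℝ) (X₀ : ℕ), ∀ X : ℕ, X₀ ≤ X →
    (((SA X).filter fun S => S.card ≤ kk X ∧ Bd (sm (zz X) S) (la (zz X) S)).card : ℝ) ≤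
      C * X * (Real.log X) ^ (-(3 / 32) : ℝ) := by
  obtain ⟨C₁, h11, h1⟩ := hSIE
  obtain ⟨C₂, h21, h2⟩ := Pool.Agent.L0h74.E3.HAL.t_HAL
  obtain ⟨C₃, h30, h3⟩ := Pm_le
  obtain ⟨C₄, h4⟩ := mer
  obtain ⟨X₀, hX₀⟩ := params
  have hC2 : 0 ≤ C₂ := by linarith
  have hC1 : 0 ≤ C₁ := by linarith
  refine ⟨42 * C₁ * C₂ * Real.exp C₄ * Real.exp (2 * C₃), X₀, fun X hX => ?_⟩
  obtain ⟨hX3, hl2, hlog1, h33, hfin⟩ := hX₀ X hX
  set ℓ : ℝ := Real.log (Real.log X) with hℓ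
  set z : ℕ := zz X with hz
  set k : ℕ := kk X with hk
  obtain ⟨δ, hδ⟩ : ∃ δ : ℝ, δ = 3 / 4 := ⟨_, rfl⟩
  have hδ0 : 0 ≤ δ := by rw [hδ]; norm_num
  rw [← hδ] at h4
  have hlX : 0 < Real.log X := by linarith
  have hl0 : 0 < ℓ := by linarith
  have hk11 : (k : ℝ) ≤ 11 * ℓ := by
    have h := Nat.ceil_lt_add_one (show (0 : ℝ) ≤ 10 * eL X by
      unfold eL; rw [← hℓ]; positivity)
    have h' : (k : ℝ) < 10 * ℓ + 1 := h
    linarith
  have hl3 : (8 : ℝ) ≤ ℓ ^ 3 := by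
    have := pow_le_pow_left₀ (by norm_num : (0 : ℝ) ≤ 2) hl2 3
    linarith
  have hz3 : 3 ≤ z := by
    rw [hz]
    unfold zz
    apply Nat.le_floor
    have h := Real.add_one_le_exp ((eL X) ^ 3)
    have h' : (eL X) ^ 3 = ℓ ^ 3 := rfl
    rw [h'] at h ⊢
    push_cast
    linarith
  have hz1 : 1 ≤ z := by omega
  have hz0 : (0 : ℝ) < z := by exact_mod_cast hz1
  have hzlog : Real.log z ≤ ℓ ^ 3 := by
    rw [Real.log_le_iff_le_exp hz0]
    exact Nat.floor_le (Real.exp_pos _).le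
  have hzlog0 : 0 < Real.log z := Real.log_pos (by exact_mod_cast (by omega : 1 < z))
  have hl4 : (1 : ℝ) ≤ ℓ ^ 4 := one_le_pow₀ (by linarith)
  -- the size of the families
  set R : ℝ := 42 * C₁ * C₂ * Real.exp C₄ * ℓ ^ 4 * ((Real.log X) ^ (1 / 8 : ℝ) *
    (Real.log X) ^ δ) / Real.log X with hR
  have hrp0 : 0 < (Real.log X) ^ (1 / 8 : ℝ) := Real.rpow_pos_of_pos hlX _
  have hrp1 : 0 < (Real.log X) ^ δ := Real.rpow_pos_of_pos hlX _
  have hR0 : 0 ≤ R := by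
    rw [hR]
    positivity
  have key : ∀ S₀ : Finset ℕ, (∀ u ∈ S₀, Pr u) → (∀ u ∈ S₀, u ≤ z) → S₀.card ≤ k →
      ∀ W ⊆ S₀, (∀ u ∈ W, Pr u) →
      ((fam W (X / ∏ p ∈ S₀, p)).card : ℝ) ≤ (X : ℝ) / ((∏ p ∈ S₀, p : ℕ) : ℝ) * R := by
    intro S₀ hS₀' hSz hSk W hWS hW1
    have hS₀ : ∀ u ∈ S₀, u.Prime := fun u hu => (hS₀' u hu).1
    set N : ℕ := ∏ p ∈ S₀, p with hN
    have hN0 : 0 < N := prod_pos_of fun p hp => hS₀ p hp
    have hN0' : (0 : ℝ) < N := by exact_mod_cast hN0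
    have hlN : Real.log N ≤ 11 * ℓ ^ 4 := by
      have e1 : Real.log N = ∑ p ∈ S₀, Real.log p := by
        rw [hN]
        push_cast
        rw [Real.log_prod]
        intro p hp
        have := (hS₀ p hp).ne_zero
        exact_mod_cast this
      rw [e1]
      calc ∑ p ∈ S₀, Real.log p ≤ ∑ _p ∈ S₀, Real.log z := by
            refine sum_le_sum fun p hp => ?_
            exact Real.log_le_log (by exact_mod_cast (hS₀ p hp).pos) (by exact_mod_cast hSz p hp)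
        _ = S₀.card * Real.log z := by rw [sum_const, nsmul_eq_mul]
        _ ≤ (11 * ℓ) * ℓ ^ 3 := by
            refine mul_le_mul (le_trans (by exact_mod_cast hSk) hk11) hzlog hzlog0.le (by positivity)
        _ = 11 * ℓ ^ 4 := by ring
    set Y : ℕ := X / N with hY
    have hX0 : (0 : ℝ) < X := by exact_mod_cast (by omega : 0 < X)
    have hYle : (Y : ℝ) ≤ (X : ℝ) / N := Nat.cast_div_le
    have hYge : Real.exp (Real.log X / 3) ≤ Y := by
      have e1 : (X : ℝ) / N < Y + 1 := by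
        rw [div_lt_iff₀ hN0']
        have := Nat.lt_mul_div_succ X hN0
        rw [← hY] at this
        have h' : ((X : ℕ) : ℝ) < ((N * (Y + 1) : ℕ) : ℝ) := by exact_mod_cast this
        push_cast at h'
        linarith
      have e2 : Real.exp (Real.log X - Real.log N) = (X : ℝ) / N := by
        rw [Real.exp_sub, Real.exp_log hX0, Real.exp_log hN0']
      have e3 : Real.exp (Real.log X / 3 + 1) ≤ (X : ℝ) / N := by
        rw [← e2]
        apply Real.exp_le_exp.2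
        linarith
      rw [Real.exp_add] at e3
      have e4 : (2 : ℝ) ≤ Real.exp 1 := by have := Real.exp_one_gt_d9; linarith
      have e5 : (1 : ℝ) ≤ Real.exp (Real.log X / 3) := Real.one_le_exp (by positivity)
      nlinarith
    have hX16 : (9 : ℝ) ≤ Real.log X / 3 := by
      have e6 : (16 : ℝ) ≤ ℓ ^ 4 := by
        have := pow_le_pow_left₀ (by norm_num : (0 : ℝ) ≤ 2) hl2 4
        linarith
      linarith
    have hY3 : 3 ≤ Y := by
      have e1 := Real.add_one_le_exp (Real.log X / 3)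
      have e2 : (3 : ℝ) ≤ Y := by linarith
      exact_mod_cast e2
    have hY2 : 2 ≤ Y := by omega
    have hY0 : (0 : ℝ) < Y := by exact_mod_cast (by omega : 0 < Y)
    have hlY : Real.log X / 3 ≤ Real.log Y := by
      rw [Real.le_log_iff_exp_le hY0]
      exact hYge
    have hYX : Y ≤ X := Nat.div_le_self _ _
    have hlYX : Real.log Y ≤ Real.log X := Real.log_le_log hY0 (by exact_mod_cast hYX)
    have hlY0 : 0 < Real.log Y := by linarith
    -- the small factor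
    have hlW : (Real.log (8 * ((∏ u ∈ W, u : ℕ) : ℝ))) ^ (1 / 2 : ℝ) ≤ 14 * ℓ ^ 4 := by
      have hWp : ∀ u ∈ W, u.Prime := fun u hu => (hW1 u hu).1
      have e0 : (1 : ℝ) ≤ ((∏ u ∈ W, u : ℕ) : ℝ) := by exact_mod_cast prod_pos_of hWp
      have e00 : (0 : ℝ) < ((∏ u ∈ W, u : ℕ) : ℝ) := by linarith
      have hl8 : Real.log 8 ≤ 3 := by
        have h2 : Real.log 8 = 3 * Real.log 2 := by
          rw [← Real.log_rpow (by norm_num)]
          norm_num
        have h3 := Real.log_two_lt_d9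
        linarith
      have e1 : Real.log (8 * ((∏ u ∈ W, u : ℕ) : ℝ)) ≤ 14 * ℓ ^ 4 := by
        rw [Real.log_mul (by norm_num) e00.ne']
        have e2 : Real.log ((∏ u ∈ W, u : ℕ) : ℝ) ≤ 11 * ℓ ^ 4 := by
          refine le_trans (Real.log_le_log e00 ?_) hlN
          exact_mod_cast prod_sub_le hWS hS₀
        linarith
      have e2 : 0 ≤ Real.log (8 * ((∏ u ∈ W, u : ℕ) : ℝ)) := Real.log_nonneg (by linarith)
      have e3 : (1 : ℝ) ≤ 14 * ℓ ^ 4 := by linarith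
      refine (Real.rpow_le_rpow e2 e1 (by norm_num)).trans ?_
      have := Real.rpow_le_rpow_of_exponent_le e3 (show (1 / 2 : ℝ) ≤ 1 by norm_num)
      rwa [Real.rpow_one] at this
    have hmain := fam_card h11 h1 h21 h2 hW1 hY2
    have hrY : (Real.log Y) ^ (1 / 8 : ℝ) ≤ (Real.log X) ^ (1 / 8 : ℝ) :=
      Real.rpow_le_rpow hlY0.le hlYX (by norm_num)
    have hexpI : Real.exp (∑ r ∈ NI Y, (1 : ℝ) / r) ≤ Real.exp C₄ * (Real.log X) ^ δ := by
      refine (Real.exp_le_exp.2 (h4 Y hY3)).trans ?_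
      rw [Real.exp_add, mul_comm (Real.exp C₄)]
      refine mul_le_mul_of_nonneg_right ?_ (Real.exp_pos _).le
      rw [Real.rpow_def_of_pos hlX]
      apply Real.exp_le_exp.2
      rw [mul_comm]
      refine mul_le_mul_of_nonneg_right ?_ hδ0
      exact Real.log_le_log hlY0 hlYX
    have hrY0 : 0 ≤ (Real.log Y) ^ (1 / 8 : ℝ) := Real.rpow_nonneg hlY0.le _
    have hrW0 : 0 ≤ (Real.log (8 * ((∏ u ∈ W, u : ℕ) : ℝ))) ^ (1 / 2 : ℝ) := by
      refine Real.rpow_nonneg (Real.log_nonneg ?_) _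
      have hWp : ∀ u ∈ W, u.Prime := fun u hu => (hW1 u hu).1
      have e0 : (1 : ℝ) ≤ ((∏ u ∈ W, u : ℕ) : ℝ) := by exact_mod_cast prod_pos_of hWp
      linarith
    have hb : C₁ * Y * ((C₂ * (Real.log (8 * ((∏ u ∈ W, u : ℕ) : ℝ))) ^ (1 / 2 : ℝ) *
        (Real.log Y) ^ (1 / 8 : ℝ)) * Real.exp (∑ r ∈ NI Y, (1 : ℝ) / r)) ≤
        C₁ * ((X : ℝ) / N) * ((C₂ * (14 * ℓ ^ 4) * (Real.log X) ^ (1 / 8 : ℝ)) *
          (Real.exp C₄ * (Real.log X) ^ δ)) := by
      gcongr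
    have hc : ((fam W Y).card : ℝ) * (Real.log X / 3) ≤
        C₁ * ((X : ℝ) / N) * ((C₂ * (14 * ℓ ^ 4) * (Real.log X) ^ (1 / 8 : ℝ)) *
          (Real.exp C₄ * (Real.log X) ^ δ)) := by
      refine le_trans ?_ (hmain.trans hb)
      exact mul_le_mul_of_nonneg_left hlY (Nat.cast_nonneg _)
    have hd : (X : ℝ) / N * R = (C₁ * ((X : ℝ) / N) * ((C₂ * (14 * ℓ ^ 4) *
        (Real.log X) ^ (1 / 8 : ℝ)) * (Real.exp C₄ * (Real.log X) ^ δ))) / (Real.log X / 3) := by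
      rw [hR]
      field_simp
      ring
    rw [hd, le_div_iff₀ (by positivity)]
    exact hc
  -- the sum over the small parts
  set B := (SA X).filter fun S => S.card ≤ k ∧ Bd (sm z S) (la z S) with hB
  set D := (range (z + 1)).filter fun p => Pr p with hD
  set W := D.powerset.filter fun S => S.card ≤ k with hW
  have hmaps : ∀ S ∈ B, sm z S ∈ W := by
    intro S hS
    rw [hB, mem_filter, SA, mem_filter, mem_powerset] at hS
    obtain ⟨⟨k1, k2, k3⟩, k4, k5⟩ := hS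
    rw [hW, mem_filter, mem_powerset]
    refine ⟨fun p hp => ?_, (card_le_card (filter_subset _ _)).trans k4⟩
    obtain ⟨l1, l2⟩ := mem_filter.1 hp
    rw [hD, mem_filter, mem_range]
    exact ⟨by omega, k2 p l1⟩
  have hcard : (B.card : ℝ) ≤ ∑ S₀ ∈ W, 2 ^ S₀.card * ((X : ℝ) / ((∏ p ∈ S₀, p : ℕ) : ℝ) * R) := by
    rw [card_eq_sum_card_fiberwise (f := fun S => sm z S) (t := W) (fun S hS => hmaps S hS)]
    push_cast
    refine sum_le_sum fun S₀ hS₀ => ?_
    rw [hW, mem_filter, mem_powerset] at hS₀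
    have hpr : ∀ u ∈ S₀, Pr u := fun u hu => (mem_filter.1 (hS₀.1 hu)).2
    have hle : ∀ u ∈ S₀, u ≤ z := fun u hu => by
      have := mem_range.1 (mem_filter.1 (hS₀.1 hu)).1
      omega
    have e1 : (B.filter fun S => sm z S = S₀).card ≤
        ((SA X).filter fun S => Bd (sm z S) (la z S) ∧ sm z S = S₀).card := by
      refine card_le_card fun S hS => ?_
      rw [mem_filter, hB, mem_filter] at hS
      rw [mem_filter]
      exact ⟨hS.1.1, hS.1.2.2, hS.2⟩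
    have e2 := e1.trans (fiber X z hpr)
    have e3 : ((B.filter fun S => sm z S = S₀).card : ℝ) ≤
        ∑ t ∈ S₀.powerset, (X : ℝ) / ((∏ p ∈ S₀, p : ℕ) : ℝ) * R := by
      refine le_trans ((Nat.cast_le (α := ℝ)).2 e2) ?_
      rw [Nat.cast_sum]
      refine sum_le_sum fun t htS => ?_
      exact key S₀ hpr hle hS₀.2 t (mem_powerset.1 htS) fun u hu => hpr u (mem_powerset.1 htS hu)
    refine e3.trans (le_of_eq ?_)
    rw [sum_const, card_powerset, nsmul_eq_mul]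
    push_cast
    ring
  have hsum : ∑ S₀ ∈ W, 2 ^ S₀.card * ((X : ℝ) / ((∏ p ∈ S₀, p : ℕ) : ℝ) * R) ≤
      X * R * Real.exp (2 * Pm z) := by
    have e1 : ∀ S₀ ∈ W, 2 ^ S₀.card * ((X : ℝ) / ((∏ p ∈ S₀, p : ℕ) : ℝ) * R) =
        X * R * ∏ p ∈ S₀, (2 / (p : ℝ)) := by
      intro S₀ _
      rw [prod_div_distrib, prod_const]
      push_cast
      ring
    rw [sum_congr rfl e1, ← mul_sum]
    have h2XR : 0 ≤ (X : ℝ) * R := by positivity
    refine mul_le_mul_of_nonneg_left ?_ h2XR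
    calc ∑ S₀ ∈ W, ∏ p ∈ S₀, (2 / (p : ℝ)) ≤ ∑ S₀ ∈ D.powerset, ∏ p ∈ S₀, (2 / (p : ℝ)) := by
          refine sum_le_sum_of_subset_of_nonneg (filter_subset _ _) fun S _ _ => ?_
          exact prod_nonneg fun _ _ => by positivity
      _ = ∏ p ∈ D, (1 + 2 / (p : ℝ)) := by rw [prod_one_add]
      _ ≤ ∏ p ∈ D, Real.exp (2 / (p : ℝ)) := by
          refine prod_le_prod (fun _ _ => by positivity) fun p _ => ?_
          rw [add_comm]
          exact Real.add_one_le_exp _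
      _ = Real.exp (∑ p ∈ D, 2 / (p : ℝ)) := by rw [Real.exp_sum]
      _ ≤ Real.exp (2 * Pm z) := by
          apply Real.exp_le_exp.2
          unfold Pm
          rw [mul_sum]
          have e2 : ∀ p : ℕ, 2 / (p : ℝ) = 2 * (1 / p) := fun p => by ring
          simp_rw [e2]
          refine sum_le_sum_of_subset_of_nonneg ?_ fun _ _ _ => by positivity
          intro p hp
          rw [hD, mem_filter, mem_range] at hp
          rw [mem_filter, mem_Icc]
          exact ⟨⟨hp.2.1.pos, by omega⟩, hp.2.1⟩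
  have hexp : Real.exp (2 * Pm z) ≤ Real.exp (2 * C₃) * ℓ ^ 6 := by
    have e1 := h3 z hz3
    have e2 : Real.exp (2 * Pm z) ≤ Real.exp (2 * (Real.log (Real.log z) + C₃)) :=
      Real.exp_le_exp.2 (by linarith)
    refine e2.trans ?_
    have e3 : Real.exp (2 * (Real.log (Real.log z) + C₃)) = Real.exp (2 * C₃) * (Real.log z) ^ 2 := by
      rw [mul_add, Real.exp_add, mul_comm]
      congr 1
      rw [show (2 : ℝ) * Real.log (Real.log z) = Real.log ((Real.log z) ^ 2) by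
        rw [Real.log_pow]; push_cast; ring]
      exact Real.exp_log (by positivity)
    rw [e3]
    refine mul_le_mul_of_nonneg_left ?_ (Real.exp_pos _).le
    calc (Real.log z) ^ 2 ≤ (ℓ ^ 3) ^ 2 := pow_le_pow_left₀ hzlog0.le hzlog 2
      _ = ℓ ^ 6 := by ring
  have hXR : 0 ≤ (X : ℝ) * R := by positivity
  have hX0' : (0 : ℝ) ≤ X := Nat.cast_nonneg _
  calc (B.card : ℝ) ≤ X * R * Real.exp (2 * Pm z) := hcard.trans hsum
    _ ≤ X * R * (Real.exp (2 * C₃) * ℓ ^ 6) :=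
        mul_le_mul_of_nonneg_left hexp hXR
    _ = 42 * C₁ * C₂ * Real.exp C₄ * Real.exp (2 * C₃) * X * (ℓ ^ 10 *
          ((Real.log X) ^ (1 / 8 : ℝ) * (Real.log X) ^ δ) / Real.log X) := by
        rw [hR]
        ring
    _ ≤ 42 * C₁ * C₂ * Real.exp C₄ * Real.exp (2 * C₃) * X * ((Real.log X) ^ (1 / 32 : ℝ) *
          ((Real.log X) ^ (1 / 8 : ℝ) * (Real.log X) ^ δ) / Real.log X) := by
        gcongr
    _ ≤ 42 * C₁ * C₂ * Real.exp C₄ * Real.exp (2 * C₃) * X *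
          (Real.log X) ^ (-(3 / 32) : ℝ) := by
        apply mul_le_mul_of_nonneg_left _ (by positivity)
        rw [← Real.rpow_add hlX, ← Real.rpow_add hlX]
        nth_rewrite 2 [← Real.rpow_one (Real.log X)]
        rw [← Real.rpow_sub hlX]
        apply Real.rpow_le_rpow_of_exponent_le hlog1.le
        rw [hδ]
        norm_num

theorem bd_small : ∀ ε : ℝ, 0 < ε → ∃ X₀ : ℕ, ∀ X : ℕ, X₀ ≤ X →
    (((SA X).filter fun S => S.card ≤ kk X ∧ Bd (sm (zz X) S) (la (zz X) S)).card : ℝ) ≤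
      ε * X := by
  intro ε hε
  obtain ⟨C, X₀, h⟩ := bad_log Pool.Agent.Y488.CX.t_SIE
  have h1 : Filter.Tendsto (fun X : ℕ => C * (Real.log (X : ℝ)) ^ (-(3 / 32) : ℝ)) Filter.atTop
      (nhds (C * 0)) := by
    refine Filter.Tendsto.const_mul C ?_
    exact (tendsto_rpow_neg_atTop (by norm_num)).comp
      (Real.tendsto_log_atTop.comp tendsto_natCast_atTop_atTop)
  rw [mul_zero] at h1
  obtain ⟨X₁, hX₁⟩ := Filter.eventually_atTop.1 (h1.eventually (gt_mem_nhds hε))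
  refine ⟨max X₀ X₁, fun X hX => ?_⟩
  have h2 := h X ((le_max_left _ _).trans hX)
  have h3 := hX₁ X ((le_max_right _ _).trans hX)
  have hX0 : (0 : ℝ) ≤ X := Nat.cast_nonneg X
  calc _ ≤ C * X * (Real.log X) ^ (-(3 / 32) : ℝ) := h2
    _ = (C * (Real.log X) ^ (-(3 / 32) : ℝ)) * X := by ring
    _ ≤ ε * X := mul_le_mul_of_nonneg_right h3.le hX0

/-- **EV-BAD.** -/
theorem t_BADE : Pool.Agent.L0h74.E3.S_BADE := by
  intro ε hε
  obtain ⟨X₁, h1⟩ := Pool.Agent.L0h74.T3.BAD.t_BAD (ε / 2) (by positivity)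
  obtain ⟨X₂, h2⟩ := bd_small (ε / 2) (by positivity)
  refine ⟨max X₁ X₂, fun X hX => ?_⟩
  have h3 := h1 X ((le_max_left _ _).trans hX)
  have h4 := h2 X ((le_max_right _ _).trans hX)
  have h5 : ((SA X).filter fun S => S.card ≤ kk X ∧ ¬ NdE (sm (zz X) S) (la (zz X) S)).card ≤
      ((SA X).filter fun S => S.card ≤ kk X ∧ ¬ Nd (sm (zz X) S) (la (zz X) S)).card +
      ((SA X).filter fun S => S.card ≤ kk X ∧ Bd (sm (zz X) S) (la (zz X) S)).card := by
    refine le_trans (card_le_card ?_) (card_union_le _ _)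
    intro S hS
    rw [mem_filter] at hS
    rw [mem_union, mem_filter, mem_filter]
    rcases notNd hS.2.2 with h | h
    · exact Or.inl ⟨hS.1, hS.2.1, h⟩
    · exact Or.inr ⟨hS.1, hS.2.1, h⟩
  have h6 : (((SA X).filter fun S => S.card ≤ kk X ∧
      ¬ NdE (sm (zz X) S) (la (zz X) S)).card : ℝ) ≤
      (((SA X).filter fun S => S.card ≤ kk X ∧ ¬ Nd (sm (zz X) S) (la (zz X) S)).card : ℝ) +
      (((SA X).filter fun S => S.card ≤ kk X ∧ Bd (sm (zz X) S) (la (zz X) S)).card : ℝ) := by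
    exact_mod_cast h5
  linarith

end Pool.Agent.L0h74.E3.BAD
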