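import Pool.Agent.L0h74.T3.Stm

/-!
# Project E3 (helper74): the prime `3`, one more inert prime; statements

The prime `2` (with a sign) is added to the set of the primes: it is an inert prime of type `t` (`0` or
`1`). The primes are the elements of `Option ℕ`; `none` is the additional prime.
-/

set_option autoImplicit false
set_option linter.unusedVariables false

open scoped Classical

namespace Pool.Agent.L0h74.E3

open Finset
open Pool.Agent.Y703.CX (sm la jj XX eL zz kk)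
open Pool.Agent.Y703.CQ (nr sg c2)
open Pool.Agent.N973.ND (uu Gv)
open Pool.Agent.N916.GB (HB ps)
open Pool.Agent.L0h74.T3 (Pr m3 ty kd RecA SA n0)

/-- one if two is not a square modulo the prime -/
def n2 (p : ℕ) : ZMod 2 := if p % 8 = 3 ∨ p % 8 = 5 then 1 else 0

/-- the data: the type of the additional prime, the symbols -/
structure Dt where
  /-- the type of the additional prime -/
  t : ℕ
  /-- the symbols of the odd primes -/
  A : ℕ → ℕ → ZMod 2
  /-- the diagonal -/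
  b : ℕ → ZMod 2

/-- the type of a prime -/
def tyO (t : ℕ) : Option ℕ → ℕ
  | none => t
  | some p => ty p

/-- one if the prime splits -/
def m3O : Option ℕ → ℕ
  | none => 0
  | some p => m3 p

/-- one if the prime is of type `1` or `3` -/
def uO (t : ℕ) : Option ℕ → ZMod 2
  | none => if t = 1 then 1 else 0
  | some p => uu p

/-- the symbols: the additional prime is `2` for `t = 0` and `-2` for `t = 1` -/
noncomputable def nO (t : ℕ) : Option ℕ → Option ℕ → ZMod 2
  | none, none => 0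
  | none, some p => n2 p + (if t = 1 then uu p else 0)
  | some p, none => n2 p
  | some p, some q => nr p q

/-- the form -/
noncomputable def eO (d : Dt) : Option ℕ → Option ℕ → ZMod 2
  | none, none => 0
  | none, some p => 0
  | some p, none => 0
  | some p, some q => d.A p q + nr q p

/-- the diagonal -/
def bO (d : Dt) : Option ℕ → ZMod 2
  | none => 0
  | some p => d.b p

section
variable {V : Type} [Fintype V]

/-- the good systems attached to a family of primes -/
def GRO (d : Dt) (r : V → Option ℕ) : Prop :=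
  Gv (univ.filter fun i => m3O (r i) = 1) (univ.filter fun i => tyO d.t (r i) = 2 ∨ tyO d.t (r i) = 1)
    (fun i j => nO d.t (r j) (r i)) (fun i j => if i = j then 0 else eO d (r i) (r j))
    (fun i => bO d (r i))

end

/-- the good sets -/
def GdO (d : Dt) (S : Finset (Option ℕ)) : Prop := GRO d fun i : S => (i : Option ℕ)

/-- the good sets of odd primes (the additional prime is added) -/
def GdE (d : Dt) (S : Finset ℕ) : Prop := GdO d (insertNone S)

/-- `kd` with the additional prime -/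
noncomputable def kE (t : ℕ) (S : Finset ℕ) : ℤ := kd S - if t = 1 then 1 else 0

/-- the labels of the large primes with respect to the small ones and two are not degenerate -/
def NdE (S₀ S₁ : Finset ℕ) : Prop :=
  ∀ (w : ℕ → ZMod 2) (c : ZMod 2), ((∃ u ∈ S₀, w u ≠ 0) ∨ c ≠ 0) →
    ∃ p ∈ S₁, ty p = 2 ∧ ∑ u ∈ S₀, w u * nr p u + c * n2 p ≠ 0

/-- the class of the sets of primes -/
def Cl (u a : ℕ) (S : Finset ℕ) : Prop := (∀ p ∈ S, Pr p) ∧ (∏ p ∈ S, p) % u = a

/-- the sets of the class with product at most `X` -/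
noncomputable def SE (u a X : ℕ) : Finset (Finset ℕ) :=
  (range (X + 1)).powerset.filter fun S => Cl u a S ∧ ∏ p ∈ S, p ≤ X

/-- the regular sets -/
noncomputable def RE (u a t X z H k V : ℕ) : Finset (Finset ℕ) :=
  (SE u a X).filter fun S => Set.InjOn (jj H) (la z S : Set ℕ) ∧ S.card ≤ k ∧
    (∏ p ∈ sm z S, p) * ∏ p ∈ la z S, XX H (jj H p) ≤ X ∧ 2 * (V : ℤ) ≤ kE t S ∧
    3 * kE t S + 3 * (V : ℤ) ≤ (n0 z S : ℤ)

/-- BX: the count in a box; the type `τ` of the primes is fixed. -/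
def S_BXE : Prop := ∀ (d : Dt) (ι : Type) [Fintype ι]
  [LinearOrder ι] (τ : ι → ℕ) (C : ι → Finset ℕ) (X : ι → ℕ) (κ : ℝ) (S₀ : Finset ℕ) (m V : ℕ),
  (d.t = 0 ∨ d.t = 1) → RecA d.A → 0 ≤ κ → (∀ i, (C i).card ≤ X i) → HB C X κ →
  (∀ v ∈ S₀, Pr v) →
  (∀ i, ∀ p ∈ C i, Pr p ∧ p ∉ S₀ ∧ ty p = τ i) →
  (∀ i l, i ≠ l → Disjoint (C i) (C l)) →
  kE d.t S₀ + ((univ.filter fun i => τ i = 3).card : ℤ) -
      ((univ.filter fun i => τ i = 1).card : ℤ) =
    2 * m → 1 ≤ V → V ≤ m → 6 * m + 3 * V ≤ (univ.filter fun i => τ i = 0).card →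
  |(((Fintype.piFinset C).filter fun p => NdE S₀ (univ.image p) ∧
        GdE d (S₀ ∪ univ.image p)).card : ℝ) -
      c2 * (((Fintype.piFinset C).filter fun p => NdE S₀ (univ.image p)).card : ℝ)| ≤
    3 * (1 / 2 : ℝ) ^ V * (((Fintype.piFinset C).filter fun p => NdE S₀ (univ.image p)).card : ℝ) +
    3 * 2 ^ ((2 * S₀.card + 3) * Fintype.card ι + (ps ι).card) * (κ * ∏ j, (X j : ℝ))

/-- KY: the sum over the boxes. -/
def S_KYE : Prop := ∃ C : ℝ, 1 ≤ C ∧ ∀ (d : Dt), (d.t = 0 ∨ d.t = 1) → RecA d.A →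
  ∀ (u a X z H k V N : ℕ) (κ : ℝ), 4 ∣ u → 1 ≤ u → a % 4 = (if d.t = 1 then 3 else 1) → 1 ≤ X → 1 ≤ H →
  1 ≤ z → 1 ≤ V → 0 ≤ κ → C ≤ κ ^ 12 * z → (H : ℝ) * Real.log X < N →
  |(((RE u a d.t X z H k V).filter fun S => NdE (sm z S) (la z S) ∧ GdE d S).card : ℝ) -
      c2 * (((RE u a d.t X z H k V).filter fun S => NdE (sm z S) (la z S)).card : ℝ)| ≤
    3 * (1 / 2 : ℝ) ^ V * ((RE u a d.t X z H k V).card : ℝ) +
    (9 * (u * N) + 9 : ℝ) ^ k * (3 ^ (16 * k ^ 2 + 16) * κ) * (X * (1 + Real.log X))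

/-- BAD: few sets have degenerate labels. -/
def S_BADE : Prop := ∀ ε : ℝ, 0 < ε → ∃ X₀ : ℕ, ∀ X : ℕ, X₀ ≤ X →
  (((SA X).filter fun S => S.card ≤ kk X ∧ ¬ NdE (sm (zz X) S) (la (zz X) S)).card : ℝ) ≤ ε * X

/-- FINAL: the natural density of the good numbers in a class -/
def S_DENE : Prop := ∀ (d : Dt) (u a : ℕ), RecA d.A → 4 ∣ u → 0 < u → a < u → Nat.Coprime a u →
  ((d.t = 0 ∧ a % 4 = 1) ∨ (d.t = 1 ∧ a % 4 = 3)) → Filter.Tendsto
  (fun X : ℕ => (((Icc 1 X).filter fun D => Squarefree D ∧ D % u = a ∧ ¬ 3 ∣ D ∧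
      GdE d D.primeFactors).card : ℝ) /
    (((Icc 1 X).filter fun D => Squarefree D ∧ D % u = a ∧ ¬ 3 ∣ D).card : ℝ))
  Filter.atTop (nhds (c2 / 2))

end Pool.Agent.L0h74.E3
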