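import Mathlib
import Pool.Agent.L0h74.E3.S4h
import Pool.Agent.L0h74.E3.Stm
import Pool.Agent.L0h74.T3.KDL

/-! # E3: the classes `D = g m`, `m` in a class prime to the modulus -/

set_option autoImplicit false
set_option linter.unusedVariables false

open scoped Classical

namespace Pool.Agent.L0h74.E3

open Finset Filter
open scoped Topology
open Pool.Agent.L0h74.T3 (Pr m3 ty kd)
open Pool.Agent.L0h74.S4 (levy_half th tendsto_th tendsto_LL LL)
open Pool.Agent.L0h74.T3.S4 (mm fp)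

/-- the classes: `g` is square-free, prime to `6`, `g ∣ u`, `12 ∣ u` and `a` is prime to `u` -/
structure Cg (g u a : ℕ) : Prop where
  cp : Cp u a
  four : 4 ∣ u
  sq : Squarefree g
  dv : g ∣ u
  g6 : Nat.Coprime g 6

/-- the square-free numbers of the class -/
def GSg (g u a X : ℕ) : Finset ℕ :=
  (Icc 1 X).filter fun D => Squarefree D ∧ D % (g * u) = g * a

section
variable {g u a : ℕ}

theorem Cg.gpos (h : Cg g u a) : 0 < g := Nat.pos_of_ne_zero h.sq.ne_zero

theorem Cg.Upos (h : Cg g u a) : 0 < g * u := Nat.mul_pos h.gpos h.cp.pos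

theorem Cg.copm (h : Cg g u a) {m : ℕ} (hm : m % u = a) : Nat.Coprime g m := by
  rw [Nat.coprime_iff_gcd_eq_one]
  by_contra hne
  obtain ⟨p, hp, hd⟩ := Nat.exists_prime_and_dvd hne
  exact h.cp.nd hp hm (hd.trans (Nat.gcd_dvd_right _ _))
    ((hd.trans (Nat.gcd_dvd_left _ _)).trans h.dv)

theorem Cg.mod_iff (h : Cg g u a) (m : ℕ) : (g * m) % (g * u) = g * a ↔ m % u = a := by
  rw [Nat.mul_mod_mul_left]
  constructor
  · intro h1; exact Nat.eq_of_mul_eq_mul_left h.gpos h1
  · intro h1; rw [h1]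

theorem Cg.dvd (h : Cg g u a) {D : ℕ} (hD : D % (g * u) = g * a) : g ∣ D := by
  have h1 : g ∣ D % (g * u) := by rw [hD]; exact dvd_mul_right _ _
  exact (Nat.dvd_mod_iff (dvd_mul_right g u)).1 h1

theorem Cg.sq_iff (h : Cg g u a) {m : ℕ} (hm : m % u = a) : Squarefree (g * m) ↔ Squarefree m := by
  rw [Nat.squarefree_mul (h.copm hm)]
  exact ⟨fun h1 => h1.2, fun h1 => ⟨h.sq, h1⟩⟩

/-- the bijection `m ↦ g m` -/
theorem GSg_card (h : Cg g u a) (X : ℕ) (P : ℕ → Prop) [DecidablePred P]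
    [DecidablePred fun m : ℕ => P (g * m)] :
    ((GSg g u a X).filter P).card = ((GS u a (X / g)).filter fun m => P (g * m)).card := by
  symm
  refine card_bij (fun m _ => g * m) ?_ ?_ ?_
  · intro m hm
    rw [mem_filter, GS, mem_filter, mem_Icc] at hm
    obtain ⟨⟨⟨h1, h2⟩, h3, h4⟩, h5⟩ := hm
    rw [mem_filter, GSg, mem_filter, mem_Icc]
    refine ⟨⟨⟨Nat.mul_pos h.gpos h1, ?_⟩, (h.sq_iff h4).2 h3, (h.mod_iff m).2 h4⟩, h5⟩
    rw [Nat.le_div_iff_mul_le h.gpos, mul_comm] at h2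
    exact h2
  · intro m _ m' _ he
    exact Nat.eq_of_mul_eq_mul_left h.gpos he
  · intro D hD
    rw [mem_filter, GSg, mem_filter, mem_Icc] at hD
    obtain ⟨⟨⟨h1, h2⟩, h3, h4⟩, h5⟩ := hD
    obtain ⟨m, rfl⟩ := h.dvd h4
    have hm := (h.mod_iff m).1 h4
    refine ⟨m, ?_, rfl⟩
    rw [mem_filter, GS, mem_filter, mem_Icc]
    refine ⟨⟨⟨Nat.pos_of_mul_pos_left h1 |> fun h => ?_, ?_⟩, (h.sq_iff hm).1 h3, hm⟩, h5⟩
    · rcases Nat.eq_zero_or_pos m with h0 | h0
      · rw [h0] at h1; simp at h1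
      · exact h0
    · rw [Nat.le_div_iff_mul_le h.gpos, mul_comm]
      exact h2

theorem GSg_card0 (h : Cg g u a) (X : ℕ) : (GSg g u a X).card = (GS u a (X / g)).card := by
  have := GSg_card h X (fun _ => True)
  simpa using this

theorem mm_mul (h : Cg g u a) {m : ℕ} (hm : m % u = a) (hm0 : m ≠ 0) :
    mm (g * m) = mm g + mm m := by
  unfold mm
  rw [(h.copm hm).primeFactors_mul, sum_union ((h.copm hm).disjoint_primeFactors)]

/-- half of the numbers of a class have `mm` at least `M` -/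
theorem half_limZ {u a : ℕ} (hco : Cp u a) (M : ℤ) : Tendsto (fun X : ℕ =>
    (((GS u a X).filter (fun D => M ≤ mm D)).card : ℝ) / (GS u a X).card) atTop
      (𝓝 (1 / 2)) := by
  obtain ⟨N, hN⟩ := (eventually_atTop.1 (card_low hco))
  have hne : ∀ n, (GS u a (n + (N + 1))).Nonempty := by
    intro n
    obtain ⟨h1, h2⟩ := hN (n + (N + 1)) (by omega)
    rw [nonempty_iff_ne_empty]
    intro h3
    rw [h3] at h1
    have hu0 : (0 : ℝ) < u := by exact_mod_cast hco.pos
    have : (0 : ℝ) < 2 / (7 * u) := by positivity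
    simp at h1
    linarith
  rw [← tendsto_add_atTop_iff_nat (N + 1)]
  have h := levy_half (fun n => GS u a (n + (N + 1))) hne
    (fun n D => ((mm D : ℝ) - M) / Real.sqrt (LL (n + (N + 1)) / 2)) (by
      intro t
      have h1 := (char_lim hco t).comp (tendsto_add_atTop_nat (N + 1))
      have h2 : Tendsto (fun n : ℕ => Complex.exp (((-(th t (n + (N + 1)) * M) : ℝ) : ℂ) *
          Complex.I)) atTop (𝓝 (Complex.exp (((-(0 * (M : ℝ)) : ℝ) : ℂ) * Complex.I))) := by
        have h3 : Tendsto (fun n : ℕ => (-(th t (n + (N + 1)) * M) : ℝ)) atTop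
            (𝓝 (-(0 * (M : ℝ)))) :=
          (((tendsto_th t).comp (tendsto_add_atTop_nat (N + 1))).mul_const _).neg
        exact (Complex.continuous_exp.tendsto _).comp
          (((Complex.continuous_ofReal.tendsto _).comp h3).mul_const _)
      have h4 := h1.mul h2
      have e0 : Complex.exp (((-(0 * (M : ℝ)) : ℝ) : ℂ) * Complex.I) = 1 := by simp
      rw [e0, mul_one] at h4
      refine h4.congr (fun n => ?_)
      simp only [Function.comp, SS]
      rw [mul_assoc, Finset.sum_mul]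
      congr 1
      apply Finset.sum_congr rfl
      intro D _
      rw [← Complex.exp_add]
      congr 1
      unfold th
      push_cast
      ring)
  refine h.congr' ?_
  have hLL := tendsto_LL.comp (tendsto_add_atTop_nat (N + 1))
  filter_upwards [hLL.eventually_gt_atTop 0] with n hn
  simp only [Function.comp] at hn
  congr 3
  apply Finset.filter_congr
  intro D _
  have hs : 0 < Real.sqrt (LL (n + (N + 1)) / 2) := Real.sqrt_pos.2 (by linarith)
  rw [le_div_iff₀ hs, zero_mul, sub_nonneg]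
  constructor
  · intro h; exact_mod_cast h
  · intro h; exact_mod_cast h

theorem tendsto_div_nat {g : ℕ} (hg : 0 < g) : Tendsto (fun X : ℕ => X / g) atTop atTop := by
  rw [tendsto_atTop]
  intro b
  filter_upwards [eventually_ge_atTop (b * g)] with X hX
  exact (Nat.le_div_iff_mul_le hg).2 hX

/-- half of the numbers of the class have `mm` at least `M` -/
theorem half_limG (h : Cg g u a) (M : ℤ) : Tendsto (fun X : ℕ =>
    (((GSg g u a X).filter (fun D => M ≤ mm D)).card : ℝ) / (GSg g u a X).card) atTop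
      (𝓝 (1 / 2)) := by
  have h1 := (half_limZ h.cp (M - mm g)).comp (tendsto_div_nat h.gpos)
  refine h1.congr fun X => ?_
  simp only [Function.comp]
  rw [GSg_card0 h, GSg_card h X (fun D => M ≤ mm D)]
  congr 3
  apply filter_congr
  intro m hm
  rw [GS, mem_filter, mem_Icc] at hm
  rw [mm_mul h hm.2.2 (by omega)]
  constructor <;> intro h <;> linarith

/-- the class has positive density -/
theorem card_lowG (h : Cg g u a) : ∀ᶠ X : ℕ in atTop,
    1 / (7 * (u : ℝ) * g) ≤ ((GSg g u a X).card : ℝ) / X ∧ 1 ≤ X := by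
  have h1 := (tendsto_div_nat h.gpos).eventually (card_low h.cp)
  have hg0 : (0 : ℝ) < g := by exact_mod_cast h.gpos
  have hu0 : (0 : ℝ) < u := by exact_mod_cast h.cp.pos
  filter_upwards [h1, eventually_ge_atTop (2 * g), eventually_ge_atTop 1] with X hX hX2 hX1
  refine ⟨?_, hX1⟩
  obtain ⟨h3, h4⟩ := hX
  rw [GSg_card0 h]
  have hX0 : (0 : ℝ) < X := by exact_mod_cast hX1
  have h5 : (0 : ℝ) < ((X / g : ℕ) : ℝ) := by exact_mod_cast h4
  rw [le_div_iff₀ h5] at h3
  rw [le_div_iff₀ hX0]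
  have h6 : (X : ℝ) / g - 1 ≤ ((X / g : ℕ) : ℝ) := by
    have := Nat.lt_floor_add_one ((X : ℝ) / g)
    rw [Nat.floor_div_eq_div] at this
    linarith
  have h7 : (2 : ℝ) ≤ X / g := by
    rw [le_div_iff₀ hg0]
    exact_mod_cast hX2
  have h8 : 1 / (7 * (u : ℝ) * g) * X = 2 / (7 * u) * (X / g / 2) := by
    field_simp
  rw [h8]
  refine le_trans ?_ h3
  apply mul_le_mul_of_nonneg_left _ (by positivity)
  linarith

theorem Cg.odd3 (h : Cg g u a) {D : ℕ} (hD : D % (g * u) = g * a) : D % 2 = 1 ∧ D % 3 ≠ 0 := by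
  obtain ⟨m, rfl⟩ := h.dvd hD
  have hm := (h.mod_iff m).1 hD
  have h1 := h.cp.modd hm
  have h2 := h.cp.mod3 hm
  have g2 : Nat.Coprime g 2 := Nat.Coprime.coprime_dvd_right (by norm_num) h.g6
  have g7 : Nat.Coprime g 3 := Nat.Coprime.coprime_dvd_right (by norm_num) h.g6
  constructor
  · have : g % 2 = 1 := by
      by_contra hne
      have h3 : 2 ∣ g := Nat.dvd_of_mod_eq_zero (by omega)
      have h4 := Nat.dvd_gcd h3 (dvd_refl 2)
      rw [g2] at h4
      omega
    rw [Nat.mul_mod, this, h1]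
  · intro h3
    have h4 : 3 ∣ g * m := Nat.dvd_of_mod_eq_zero h3
    rcases (Nat.Prime.dvd_mul (by norm_num)).1 h4 with h5 | h5
    · have h6 := Nat.dvd_gcd h5 (dvd_refl 3)
      rw [g7] at h6
      omega
    · exact h2 (Nat.mod_eq_zero_of_dvd h5)

/-- the primes of `D` -/
lemma pr_of {D : ℕ} (h2 : D % 2 = 1) (h3 : D % 3 ≠ 0) :
    ∀ p ∈ D.primeFactors, Pr p := by
  intro p hp
  have hpp := Nat.prime_of_mem_primeFactors hp
  have hd := Nat.dvd_of_mem_primeFactors hp
  refine ⟨hpp, ?_, ?_⟩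
  · rintro rfl
    have : D % 2 = 0 := Nat.mod_eq_zero_of_dvd hd
    omega
  · rintro rfl
    exact h3 (Nat.mod_eq_zero_of_dvd hd)

/-- the bijection -/
theorem card_eq (h : Cg g u a) (X : ℕ) (G : Finset ℕ → Prop) [DecidablePred G]
    [DecidablePred fun D : ℕ => G D.primeFactors] :
    ((SE (g * u) (g * a) X).filter G).card =
      ((GSg g u a X).filter fun D => G D.primeFactors).card := by
  refine card_bij' (fun S _ => ∏ p ∈ S, p) (fun D _ => D.primeFactors) ?_ ?_ ?_ ?_
  · intro S hS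
    rw [mem_filter, SE, mem_filter, Cl] at hS
    obtain ⟨⟨h1, ⟨h2, h3⟩, h4⟩, h5⟩ := hS
    have hpr : ∀ p ∈ S, p.Prime := fun p hp => (h2 p hp).1
    have e1 : (∏ p ∈ S, p).primeFactors = S := Nat.primeFactors_prod hpr
    rw [mem_filter, GSg, mem_filter, mem_Icc, e1]
    refine ⟨⟨⟨prod_pos fun p hp => (hpr p hp).pos, h4⟩, ?_, h3⟩, h5⟩
    refine Finset.squarefree_prod_of_pairwise_isCoprime (fun p hp q hq hpq => ?_)
      fun p hp => (hpr p hp).prime.squarefree
    rw [Function.onFun, ← Nat.coprime_iff_isRelPrime]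
    exact (Nat.coprime_primes (hpr p hp) (hpr q hq)).2 hpq
  · intro D hD
    rw [mem_filter, GSg, mem_filter, mem_Icc] at hD
    obtain ⟨⟨⟨h0, h1⟩, h2, h3⟩, h5⟩ := hD
    have e1 : ∏ p ∈ D.primeFactors, p = D := Nat.prod_primeFactors_of_squarefree h2
    obtain ⟨o1, o2⟩ := h.odd3 h3
    rw [mem_filter, SE, mem_filter, mem_powerset, Cl, e1]
    refine ⟨⟨?_, ⟨pr_of o1 o2, h3⟩, h1⟩, h5⟩
    intro p hp
    have := Nat.le_of_dvd (by omega) (Nat.dvd_of_mem_primeFactors hp)
    rw [mem_range]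
    omega
  · intro S hS
    rw [mem_filter, SE, mem_filter, Cl] at hS
    exact Nat.primeFactors_prod fun p hp => (hS.1.2.1.1 p hp).1
  · intro D hD
    rw [mem_filter, GSg, mem_filter, mem_Icc] at hD
    exact Nat.prod_primeFactors_of_squarefree hD.1.2.1

theorem card_eq0 (h : Cg g u a) (X : ℕ) :
    (SE (g * u) (g * a) X).card = (GSg g u a X).card := by
  have h := card_eq h X (fun _ => True)
  simpa using h

theorem GSg_le (g u a X : ℕ) : ((GSg g u a X).card : ℝ) ≤ X := by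
  have h1 : GSg g u a X ⊆ Icc 1 X := by
    unfold GSg
    exact filter_subset _ _
  have h := card_le_card h1
  rw [Nat.card_Icc] at h
  exact_mod_cast (by omega : (GSg g u a X).card ≤ X)

theorem t_KD (h : Cg g u a) (M : ℤ) : ∀ ε : ℝ, 0 < ε → ∃ X₀ : ℕ, ∀ X : ℕ, X₀ ≤ X →
    |(((SE (g * u) (g * a) X).filter fun S => M ≤ kd S).card : ℝ) -
      1 / 2 * ((SE (g * u) (g * a) X).card : ℝ)| ≤ ε * X := by
  intro ε hε
  have h1 := half_limG h M
  rw [Metric.tendsto_atTop] at h1
  obtain ⟨X₀, h0⟩ := h1 ε hε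
  obtain ⟨X₁, h1⟩ := eventually_atTop.1 (card_lowG h)
  refine ⟨max X₀ X₁, fun X hX => ?_⟩
  have h2 := h0 X ((le_max_left _ _).trans hX)
  obtain ⟨h3, h4⟩ := h1 X ((le_max_right _ _).trans hX)
  have hX0 : (0 : ℝ) < X := by exact_mod_cast h4
  have hu0 : (0 : ℝ) < u := by exact_mod_cast h.cp.pos
  have hg0 : (0 : ℝ) < g := by exact_mod_cast h.gpos
  have hG : (0 : ℝ) < (GSg g u a X).card := by
    have h5 : 0 < ((GSg g u a X).card : ℝ) / X := lt_of_lt_of_le (by positivity) h3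
    rcases lt_or_ge 0 ((GSg g u a X).card : ℝ) with h | h
    · exact h
    · exfalso
      have := div_nonpos_of_nonpos_of_nonneg h hX0.le
      linarith
  rw [card_eq0 h, card_eq h X (fun S => M ≤ kd S)]
  have e : (GSg g u a X).filter (fun D => M ≤ kd D.primeFactors) =
      (GSg g u a X).filter (fun D => M ≤ mm D) := by
    apply filter_congr
    intro D hD
    rw [GSg, mem_filter] at hD
    obtain ⟨o1, o2⟩ := h.odd3 hD.2.2
    rw [Pool.Agent.L0h74.T3.KDL.kd_eq (pr_of o1 o2)]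
  rw [e]
  rw [Real.dist_eq] at h2
  have h5 : ((((GSg g u a X).filter (fun D => M ≤ mm D)).card : ℝ) -
      1 / 2 * ((GSg g u a X).card : ℝ)) = ((((GSg g u a X).filter (fun D => M ≤ mm D)).card : ℝ) /
      (GSg g u a X).card - 1 / 2) * (GSg g u a X).card := by
    field_simp
  rw [h5, abs_mul, abs_of_pos hG]
  exact mul_le_mul h2.le (GSg_le g u a X) hG.le hε.le

/-- the same with `kE` -/
theorem t_KDE (h : Cg g u a) (t : ℕ) (M : ℤ) : ∀ ε : ℝ, 0 < ε → ∃ X₀ : ℕ, ∀ X : ℕ,
    X₀ ≤ X → |(((SE (g * u) (g * a) X).filter fun S => M ≤ kE t S).card : ℝ) -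
      1 / 2 * ((SE (g * u) (g * a) X).card : ℝ)| ≤ ε * X := by
  intro ε hε
  obtain ⟨X₀, h0⟩ := t_KD h (M + if t = 1 then 1 else 0) ε hε
  refine ⟨X₀, fun X hX => ?_⟩
  have h1 := h0 X hX
  have e : (SE (g * u) (g * a) X).filter (fun S => M ≤ kE t S) =
      (SE (g * u) (g * a) X).filter (fun S => (M + if t = 1 then 1 else 0) ≤ kd S) := by
    apply filter_congr
    intro S _
    unfold kE
    constructor <;> intro h <;> linarith
  rw [e]
  exact h1

end

end Pool.Agent.L0h74.E3
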