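import Pool.Agent.L0h74.E3.Stm
import Pool.Agent.L0h74.T3.KEY

/-! E3-KEY: the sum over the boxes (after `Pool/Agent/L0h74/EV/KEY.lean`). -/

set_option autoImplicit false
set_option linter.unusedVariables false

open scoped Classical

namespace Pool.Agent.L0h74.E3.KEY

open Finset
open Pool.Agent.Y703.CX (sm la jj XX)
open Pool.Agent.L0h74.T3 (Pr m3 ty SA kd RecA m3_le ty_lt n0)
open Pool.Agent.L0h74.E3 (Dt kE GdE NdE Cl SE RE S_BXE S_KYE)
open Pool.Agent.N916.GB (HB ps S_BIL Po)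
open Pool.Agent.Y703.CQ (nr sg c2)
open Pool.Agent.L0h74.KD.KEY (le_XX sm_la_card sm_la_prod prod_mod4 root12 Bil ps_card card_sub TP
  mem_TP harm_TP)
open Pool.Agent.L0h74.T3.KEY (cl_prime cl_odd ty_odd kd_par)

/-- the class of a large prime -/
noncomputable def ph (u H p : ℕ) : ℕ × ℕ := (jj H p, p % (3 * u))

theorem ty_mod {u : ℕ} (hu : 4 ∣ u) (p : ℕ) : ty (p % (3 * u)) = ty p := by
  have h4 : p % (3 * u) % 4 = p % 4 := Nat.mod_mod_of_dvd p (Dvd.dvd.mul_left hu 3)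
  have h3 : p % (3 * u) % 3 = p % 3 := Nat.mod_mod_of_dvd p (dvd_mul_right 3 u)
  unfold ty m3
  rw [h4, h3]

/-- the parity of `kE` -/
theorem kE_par {t u a : ℕ} (hu : 4 ∣ u) (ha : a % 4 = (if t = 1 then 3 else 1)) {S : Finset ℕ}
    (hS : ∀ q ∈ S, Pr q) (h : (∏ p ∈ S, p) % u = a) : kE t S % 2 = 0 := by
  have h4 : (∏ p ∈ S, p) % 4 = a % 4 := by
    rw [← h, Nat.mod_mod_of_dvd _ hu]
  have h1 := kd_par hS
  unfold kE
  by_cases ht : t = 1
  · rw [if_pos ht] at ha ⊢
    rw [h4, ha] at h1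
    have h2 : ¬ kd S % 2 = 0 := fun h => by simpa using h1.1 h
    omega
  · rw [if_neg ht] at ha ⊢
    have h2 : kd S % 2 = 0 := h1.2 (by rw [h4, ha])
    omega

/-- the key of a set -/
noncomputable def ky (u z H : ℕ) (S : Finset ℕ) : Finset ℕ × Finset (ℕ × ℕ) :=
  (sm z S, (la z S).image (ph u H))

/-- `kd` of a key -/
noncomputable def kJ (t : ℕ) (S₀ : Finset ℕ) (J : Finset (ℕ × ℕ)) : ℤ :=
  kE t S₀ + ((J.filter fun e => ty e.2 = 3).card : ℤ) -
    ((J.filter fun e => ty e.2 = 1).card : ℤ)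

/-- the keys which occur -/
structure KP (u a t X z H k V : ℕ) (S₀ : Finset ℕ) (J : Finset (ℕ × ℕ)) : Prop where
  cl : ∀ q ∈ S₀, Pr q
  le : ∀ q ∈ S₀, q ≤ z
  inj : Set.InjOn Prod.fst (J : Set (ℕ × ℕ))
  card : S₀.card + J.card ≤ k
  prod : (∏ p ∈ S₀, p) * ∏ e ∈ J, XX H e.1 ≤ X
  cls : ((∏ p ∈ S₀, p) * ∏ e ∈ J, e.2) % u = a
  mod : kJ t S₀ J % 2 = 0
  few : 2 * (V : ℤ) ≤ kJ t S₀ J
  lar : 3 * kJ t S₀ J + 3 * (V : ℤ) ≤ ((J.filter fun e => ty e.2 = 0).card : ℤ)

/-- the values of `kd` and `n0` in terms of the key -/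
theorem key_val {t u z H : ℕ} (hu : 4 ∣ u) {S : Finset ℕ}
    (hi : Set.InjOn (ph u H) (la z S : Set ℕ)) :
    kJ t (sm z S) ((la z S).image (ph u H)) = kE t S ∧
      (((la z S).image (ph u H)).filter fun e => ty e.2 = 0).card = n0 z S := by
  have f3 : ∀ a : ℕ, (((la z S).image (ph u H)).filter fun e => ty e.2 = a).card =
      ((la z S).filter fun p => ty p = a).card := by
    intro a
    rw [Finset.filter_image, Finset.card_image_of_injOn]
    · congr 1
      refine Finset.filter_congr fun p _ => ?_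
      show ty (p % (3 * u)) = a ↔ _
      rw [ty_mod hu]
    · intro x hx y hy hxy
      exact hi (Finset.mem_coe.2 (Finset.mem_filter.1 (Finset.mem_coe.1 hx)).1)
        (Finset.mem_coe.2 (Finset.mem_filter.1 (Finset.mem_coe.1 hy)).1) hxy
  have f4 : ∀ a : ℕ, (S.filter fun p => ty p = a).card =
      ((sm z S).filter fun p => ty p = a).card + ((la z S).filter fun p => ty p = a).card := by
    intro a
    unfold sm la
    rw [Finset.filter_filter, Finset.filter_filter,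
      ← Finset.card_filter_add_card_filter_not (s := S.filter fun p => ty p = a) (fun p => p ≤ z),
      Finset.filter_filter, Finset.filter_filter]
    congr 2
    · apply Finset.filter_congr
      intro p _
      tauto
    · apply Finset.filter_congr
      intro p _
      tauto
  refine ⟨?_, ?_⟩
  · unfold kJ kE kd
    rw [f3, f3, f4 3, f4 1]
    push_cast
    ring
  · rw [f3]
    rfl

/-- the class in terms of the key -/
theorem cls_val {u z H : ℕ} {S : Finset ℕ} (hi : Set.InjOn (ph u H) (la z S : Set ℕ)) :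
    ((∏ p ∈ sm z S, p) * ∏ e ∈ (la z S).image (ph u H), e.2) % u = (∏ p ∈ S, p) % u := by
  rw [Finset.prod_image hi, ← sm_la_prod z S]
  apply Nat.ModEq.mul_left
  show (∏ p ∈ la z S, p % (3 * u)) ≡ ∏ p ∈ la z S, p [MOD u]
  refine Nat.ModEq.prod fun p _ => ?_
  show p % (3 * u) % u = p % u
  exact Nat.mod_mod_of_dvd p (dvd_mul_left u 3)

theorem rr_iff {u a t X z H k V : ℕ} (hu : 4 ∣ u) (ha : a % 4 = (if t = 1 then 3 else 1))
    (hH : 1 ≤ H) {S : Finset ℕ} (hS : ∀ q ∈ S, Pr q)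
    (hi : Set.InjOn (ph u H) (la z S : Set ℕ)) :
    S ∈ RE u a t X z H k V ↔ KP u a t X z H k V (ky u z H S).1 (ky u z H S).2 := by
  obtain ⟨v1, v2⟩ := key_val (t := t) hu hi
  have v3 := cls_val hi
  set J := (la z S).image (ph u H) with hJ
  have hky : ky u z H S = (sm z S, J) := rfl
  rw [hky]
  have f2 : J.card = (la z S).card := Finset.card_image_of_injOn hi
  have f8 : ∏ e ∈ J, XX H e.1 = ∏ p ∈ la z S, XX H (jj H p) := by
    rw [hJ, Finset.prod_image hi]
    rfl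
  have f9 : Set.InjOn (jj H) (la z S : Set ℕ) ↔ Set.InjOn Prod.fst (J : Set (ℕ × ℕ)) := by
    constructor
    · intro h a ha b hb hab
      rw [Finset.mem_coe, hJ, Finset.mem_image] at ha hb
      obtain ⟨p, hp, rfl⟩ := ha
      obtain ⟨q, hq, rfl⟩ := hb
      rw [h (Finset.mem_coe.2 hp) (Finset.mem_coe.2 hq) hab]
    · intro h p hp q hq hpq
      exact hi hp hq (h (Finset.mem_coe.2 (Finset.mem_image_of_mem _ (Finset.mem_coe.1 hp)))
        (Finset.mem_coe.2 (Finset.mem_image_of_mem _ (Finset.mem_coe.1 hq))) hpq)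
  have hsm : sm z S ⊆ S := Finset.filter_subset _ _
  have hla : la z S ⊆ S := Finset.filter_subset _ _
  constructor
  · intro h
    unfold RE at h
    rw [Finset.mem_filter] at h
    obtain ⟨h1, h2, h3, h4, h5, h7⟩ := h
    unfold SE at h1
    rw [Finset.mem_filter] at h1
    obtain ⟨-, h6, h10⟩ := h1
    refine ⟨fun q hq => hS q (hsm hq), fun q hq => (Finset.mem_filter.1 hq).2,
      f9.1 h2, ?_, ?_, ?_, ?_, ?_, ?_⟩
    · rw [f2, sm_la_card]
      exact h3
    · rw [f8]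
      exact h4
    · rw [v3]
      exact h6.2
    · rw [v1]
      exact kE_par hu ha hS h6.2
    · rw [v1]
      exact h5
    · rw [v1, v2]
      exact h7
  · rintro ⟨k1, k2, k7, k8, k9, k13, k10, k11, k12⟩
    have hprod : ∏ p ∈ S, p ≤ X := by
      rw [← sm_la_prod z S]
      refine le_trans (Nat.mul_le_mul_left _ ?_) k9
      rw [f8]
      refine Finset.prod_le_prod' fun p hp => le_XX hH (cl_prime (hS p (hla hp))).one_le
    rw [v1] at k10 k11 k12
    rw [v2] at k12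
    rw [v3] at k13
    unfold RE SE
    rw [Finset.mem_filter, Finset.mem_filter, Finset.mem_powerset]
    refine ⟨⟨?_, ⟨hS, k13⟩, hprod⟩, f9.2 k7, ?_, ?_, k11, k12⟩
    · intro q hq
      rw [Finset.mem_range]
      have h1 : q ∣ ∏ p ∈ S, p := Finset.dvd_prod_of_mem _ hq
      have h2 : 0 < ∏ p ∈ S, p := Finset.prod_pos fun p hp => (cl_prime (hS p hp)).pos
      have := Nat.le_of_dvd h2 h1
      omega
    · rw [← sm_la_card z S, ← f2]
      exact k8
    · rw [← f8]
      exact k9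

/-- the primes of a block -/
noncomputable def CC (u z H : ℕ) (e : ℕ × ℕ) : Finset ℕ :=
  (Icc 1 (XX H e.1)).filter fun p => Pr p ∧ z < p ∧ ph u H p = e

theorem mem_CC {u z H : ℕ} (hH : 1 ≤ H) {e : ℕ × ℕ} {p : ℕ} :
    p ∈ CC u z H e ↔ Pr p ∧ z < p ∧ ph u H p = e := by
  unfold CC
  rw [Finset.mem_filter, Finset.mem_Icc]
  constructor
  · exact fun h => h.2
  · intro h
    refine ⟨⟨(cl_prime h.1).one_le, ?_⟩, h⟩
    have := le_XX hH (cl_prime h.1).one_le
    have h2 : jj H p = e.1 := congrArg Prod.fst h.2.2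
    rw [h2] at this
    exact this

section fill
variable {u z H : ℕ} {S₀ : Finset ℕ} {J : Finset (ℕ × ℕ)} {p : J → ℕ}

theorem sm_fill (hH : 1 ≤ H) (h₀ : ∀ q ∈ S₀, q ≤ z) (hp : ∀ i : J, p i ∈ CC u z H i) :
    sm z (S₀ ∪ univ.image p) = S₀ := by
  ext q
  unfold sm
  rw [Finset.mem_filter, Finset.mem_union, Finset.mem_image]
  constructor
  · rintro ⟨h | ⟨i, -, rfl⟩, h2⟩
    · exact h
    · have := ((mem_CC hH).1 (hp i)).2.1
      omega
  · exact fun h => ⟨Or.inl h, h₀ q h⟩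

theorem la_fill (hH : 1 ≤ H) (h₀ : ∀ q ∈ S₀, q ≤ z) (hp : ∀ i : J, p i ∈ CC u z H i) :
    la z (S₀ ∪ univ.image p) = univ.image p := by
  ext q
  unfold la
  rw [Finset.mem_filter, Finset.mem_union, Finset.mem_image]
  constructor
  · rintro ⟨h | h, h2⟩
    · exact absurd (h₀ q h) h2
    · exact h
  · rintro ⟨i, -, rfl⟩
    have := ((mem_CC hH).1 (hp i)).2.1
    exact ⟨Or.inr ⟨i, Finset.mem_univ _, rfl⟩, by omega⟩

theorem ph_fill (hH : 1 ≤ H) (hp : ∀ i : J, p i ∈ CC u z H i) (i : J) : ph u H (p i) = i :=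
  ((mem_CC hH).1 (hp i)).2.2

theorem im_fill (hH : 1 ≤ H) (hp : ∀ i : J, p i ∈ CC u z H i) :
    (univ.image p).image (ph u H) = J := by
  ext k
  rw [Finset.mem_image]
  constructor
  · rintro ⟨q, hq, rfl⟩
    rw [Finset.mem_image] at hq
    obtain ⟨i, -, rfl⟩ := hq
    rw [ph_fill hH hp]
    exact i.2
  · intro hk
    exact ⟨p ⟨k, hk⟩, Finset.mem_image_of_mem _ (Finset.mem_univ _), ph_fill hH hp ⟨k, hk⟩⟩

theorem ky_fill (hH : 1 ≤ H) (h₀ : ∀ q ∈ S₀, q ≤ z) (hp : ∀ i : J, p i ∈ CC u z H i) :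
    ky u z H (S₀ ∪ univ.image p) = (S₀, J) := by
  unfold ky
  rw [sm_fill hH h₀ hp, la_fill hH h₀ hp, im_fill hH hp]

theorem inj_fill (hH : 1 ≤ H) (h₀ : ∀ q ∈ S₀, q ≤ z) (hp : ∀ i : J, p i ∈ CC u z H i) :
    Set.InjOn (ph u H) (la z (S₀ ∪ univ.image p) : Set ℕ) := by
  rw [la_fill hH h₀ hp]
  intro a ha b hb hab
  rw [Finset.mem_coe, Finset.mem_image] at ha hb
  obtain ⟨i, -, rfl⟩ := ha
  obtain ⟨j, -, rfl⟩ := hb
  rw [ph_fill hH hp, ph_fill hH hp] at hab
  rw [Subtype.ext hab]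

end fill

theorem rr_facts {u a t X z H k V : ℕ} {S : Finset ℕ} (hS : S ∈ RE u a t X z H k V) :
    (∀ q ∈ S, Pr q) ∧ Set.InjOn (jj H) (la z S : Set ℕ) ∧ ∏ p ∈ S, p ≤ X := by
  unfold RE SE at hS
  rw [Finset.mem_filter, Finset.mem_filter] at hS
  exact ⟨hS.1.2.1.1, hS.2.1, hS.1.2.2⟩

theorem inj_ph {u H : ℕ} {A : Set ℕ} (h : Set.InjOn (jj H) A) : Set.InjOn (ph u H) A :=
  fun _ ha _ hb hab => h ha hb (congrArg Prod.fst hab)

theorem key_bij {u a t X z H k V : ℕ} (hu : 4 ∣ u) (ha : a % 4 = (if t = 1 then 3 else 1))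
    (hH : 1 ≤ H) {S₀ : Finset ℕ} {J : Finset (ℕ × ℕ)}
    (hkey : KP u a t X z H k V S₀ J) (P : Finset ℕ → Prop) [DecidablePred P] [DecidableEq J] :
    ((Fintype.piFinset fun i : J => CC u z H i).filter fun p => P (S₀ ∪ univ.image p)).card =
      ((RE u a t X z H k V).filter fun S => ky u z H S = (S₀, J) ∧ P S).card := by
  have h₀ := hkey.le
  apply Finset.card_bij (fun (p : J → ℕ) _ => S₀ ∪ univ.image p)
  · intro p hp
    rw [Finset.mem_filter, Fintype.mem_piFinset] at hp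
    obtain ⟨hp, hP⟩ := hp
    have hk := ky_fill hH h₀ hp
    rw [Finset.mem_filter]
    refine ⟨?_, hk, hP⟩
    rw [rr_iff hu ha hH _ (inj_fill hH h₀ hp), hk]
    · exact hkey
    · intro q hq
      rw [Finset.mem_union, Finset.mem_image] at hq
      rcases hq with hq | ⟨i, -, rfl⟩
      · exact hkey.cl q hq
      · exact ((mem_CC hH).1 (hp i)).1
  · intro p hp p' hp' h
    rw [Finset.mem_filter, Fintype.mem_piFinset] at hp hp'
    have h1 := la_fill hH h₀ hp.1
    rw [h, la_fill hH h₀ hp'.1] at h1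
    funext i
    have h2 : p i ∈ univ.image p' := by
      rw [h1]
      exact Finset.mem_image_of_mem _ (Finset.mem_univ _)
    rw [Finset.mem_image] at h2
    obtain ⟨j, -, hj⟩ := h2
    have h3 := ph_fill hH hp.1 i
    have h4 := ph_fill hH hp'.1 j
    rw [hj, h3] at h4
    rw [← hj, Subtype.ext h4]
  · intro S hS
    rw [Finset.mem_filter] at hS
    obtain ⟨hSR, hSk, hSP⟩ := hS
    obtain ⟨hSO, hSI, -⟩ := rr_facts hSR
    have hk1 : sm z S = S₀ := congrArg Prod.fst hSk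
    have hk2 : (la z S).image (ph u H) = J := congrArg Prod.snd hSk
    have hex : ∀ i : J, ∃ q ∈ la z S, ph u H q = i := by
      rintro ⟨i, hi⟩
      rw [← hk2, Finset.mem_image] at hi
      exact hi
    choose p hp1 hp2 using hex
    have him : univ.image p = la z S := by
      ext q
      rw [Finset.mem_image]
      constructor
      · rintro ⟨i, -, rfl⟩
        exact hp1 i
      · intro hq
        have hjq : ph u H q ∈ J := by
          rw [← hk2]
          exact Finset.mem_image_of_mem _ hq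
        exact ⟨⟨ph u H q, hjq⟩, Finset.mem_univ _, inj_ph hSI (Finset.mem_coe.2 (hp1 _))
          (Finset.mem_coe.2 hq) (hp2 ⟨ph u H q, hjq⟩)⟩
    have hSe : S₀ ∪ univ.image p = S := by
      rw [him, ← hk1]
      unfold sm la
      exact Finset.filter_union_filter_not_eq _ _
    refine ⟨p, ?_, hSe⟩
    rw [Finset.mem_filter, Fintype.mem_piFinset, hSe]
    refine ⟨fun i => (mem_CC hH).2 ⟨hSO _ (Finset.mem_filter.1 (hp1 i)).1,
      not_le.1 (Finset.mem_filter.1 (hp1 i)).2, hp2 i⟩, hSP⟩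

theorem CC_facts {u z H : ℕ} (hu : 4 ∣ u) (hH : 1 ≤ H) {e : ℕ × ℕ} {p : ℕ}
    (hp : p ∈ CC u z H e) :
    Pr p ∧ z < p ∧ p ≤ XX H e.1 ∧ ty p = ty e.2 := by
  obtain ⟨h1, h2, h3⟩ := (mem_CC hH).1 hp
  have h4 : ty p = ty e.2 := by
    have h5 : p % (3 * u) = e.2 := congrArg Prod.snd h3
    rw [← h5, ty_mod hu]
  refine ⟨h1, h2, ?_, h4⟩
  unfold CC at hp
  exact (Finset.mem_Icc.1 (Finset.mem_filter.1 hp).1).2

theorem CC_disj {u z H : ℕ} (hH : 1 ≤ H) {J : Finset (ℕ × ℕ)} (i l : J)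
    (hil : i ≠ l) : Disjoint (CC u z H i) (CC u z H l) := by
  rw [Finset.disjoint_left]
  intro p hp hp'
  have h5 := ((mem_CC hH).1 hp).2.2
  have h6 := ((mem_CC hH).1 hp').2.2
  exact hil (Subtype.ext (h5.symm.trans h6))

theorem hb_box {C₁ : ℝ} (hB : Bil C₁)
    {u z H : ℕ} (hu : 4 ∣ u) (hH : 1 ≤ H) (hz : 1 ≤ z) {κ : ℝ} (hκ : 0 ≤ κ) (hκ1 : C₁ ≤ κ ^ 12 * z)
    {J : Finset (ℕ × ℕ)} :
    HB (fun i : J => CC u z H i) (fun i => XX H i.1.1) κ := by
  intro i l hil c d hc hd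
  show ‖∑ x ∈ CC u z H i, ∑ y ∈ CC u z H l, c x * d y * sg (nr x y)‖ ≤
    κ * ((XX H i.1.1 : ℝ) * (XX H l.1.1 : ℝ))
  have hz0 : (0 : ℝ) < z := by exact_mod_cast hz
  have hk0 : (0 : ℝ) ≤ κ * ((XX H i.1.1 : ℝ) * (XX H l.1.1 : ℝ)) := by positivity
  rcases (CC u z H i).eq_empty_or_nonempty with he | ⟨p₀, hp₀⟩
  · rw [he, Finset.sum_empty, norm_zero]
    exact hk0
  rcases (CC u z H l).eq_empty_or_nonempty with he | ⟨q₀, hq₀⟩
  · rw [he]
    simp only [Finset.sum_empty, Finset.sum_const_zero, norm_zero]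
    exact hk0
  have hzi : z ≤ XX H i.1.1 := by
    have := CC_facts hu hH hp₀
    omega
  have hzl : z ≤ XX H l.1.1 := by
    have := CC_facts hu hH hq₀
    omega
  have h3 := hB (CC u z H i) (CC u z H l) (XX H i.1.1) (XX H l.1.1) z c d
    (fun p hp => by
      obtain ⟨h3, -, h4, h5⟩ := CC_facts hu hH hp
      exact ⟨⟨h3.1, h3.2.1⟩, h4⟩)
    (fun p hp => by
      obtain ⟨h3, -, h4, h5⟩ := CC_facts hu hH hp
      exact ⟨⟨h3.1, h3.2.1⟩, h4⟩)
    (CC_disj hH i l hil) hz hzi hzl hc hd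
  exact root12 (norm_nonneg _) hκ (Nat.cast_nonneg _) (Nat.cast_nonneg _) hz0 h3 hκ1

theorem box_dec (hBX : S_BXE) (d : Dt) (ht : d.t = 0 ∨ d.t = 1)
    (ι : Type) [Fintype ι] [inst : DecidableEq ι] (lo : LinearOrder ι) (τ : ι → ℕ)
    (C : ι → Finset ℕ) (X : ι → ℕ) (κ : ℝ) (S₀ : Finset ℕ) (m V : ℕ)
    (h0 : RecA d.A) (h1 : 0 ≤ κ)
    (h2 : ∀ i, (C i).card ≤ X i) (h3 : HB C X κ)
    (h4 : ∀ v ∈ S₀, Pr v)
    (h5 : ∀ i, ∀ p ∈ C i, Pr p ∧ p ∉ S₀ ∧ ty p = τ i)
    (h6 : ∀ i l, i ≠ l → Disjoint (C i) (C l))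
    (h7 : kE d.t S₀ + ((univ.filter fun i => τ i = 3).card : ℤ) -
      ((univ.filter fun i => τ i = 1).card : ℤ) = 2 * m)
    (h8 : 1 ≤ V) (h9 : V ≤ m) (h10 : 6 * m + 3 * V ≤ (univ.filter fun i => τ i = 0).card) :
    |(((Fintype.piFinset C).filter fun p => NdE S₀ (univ.image p) ∧
        GdE d (S₀ ∪ univ.image p)).card : ℝ) -
      c2 * (((Fintype.piFinset C).filter fun p => NdE S₀ (univ.image p)).card : ℝ)| ≤
    3 * (1 / 2 : ℝ) ^ V * (((Fintype.piFinset C).filter fun p => NdE S₀ (univ.image p)).card : ℝ) +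
    3 * 2 ^ ((2 * S₀.card + 3) * Fintype.card ι + (ps ι).card) * (κ * ∏ j, (X j : ℝ)) := by
  have h := hBX d ι τ C X κ S₀ m V ht h0 h1 h2 h3 h4 h5 h6 h7 h8 h9 h10
  have e : inst = fun a b => lo.toDecidableEq a b := Subsingleton.elim _ _
  subst e
  exact h

theorem per_key (hBX : S_BXE) {d : Dt} (ht : d.t = 0 ∨ d.t = 1) (hA : RecA d.A)
    {u a X z H k V : ℕ} (hu : 4 ∣ u) (ha : a % 4 = (if d.t = 1 then 3 else 1)) (hH : 1 ≤ H)
    (hV : 1 ≤ V)
    {κ : ℝ} (hκ : 0 ≤ κ) {S₀ : Finset ℕ} {J : Finset (ℕ × ℕ)} (hk : KP u a d.t X z H k V S₀ J)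
    (hHB : HB (fun i : J => CC u z H i) (fun i => XX H i.1.1) κ) :
    |(((RE u a d.t X z H k V).filter fun S => ky u z H S = (S₀, J) ∧
        (NdE (sm z S) (la z S) ∧ GdE d S)).card : ℝ) -
      c2 * (((RE u a d.t X z H k V).filter fun S => ky u z H S = (S₀, J) ∧
        NdE (sm z S) (la z S)).card : ℝ)| ≤
    3 * (1 / 2 : ℝ) ^ V *
        (((RE u a d.t X z H k V).filter fun S => ky u z H S = (S₀, J)).card : ℝ) +
      (3 ^ (16 * k ^ 2 + 16) * κ) * (X / ((∏ p ∈ S₀, p : ℕ) : ℝ)) := by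
  have c1 : ∀ a : ℕ, (univ.filter fun e : J => ty e.1.2 = a).card =
      (J.filter fun e => ty e.2 = a).card := by
    intro a
    rw [← Finset.card_map (Function.Embedding.subtype (· ∈ J))]
    congr 1
    ext x
    simp only [Finset.mem_map, Finset.mem_filter, Finset.mem_univ, true_and,
      Function.Embedding.coe_subtype]
    constructor
    · rintro ⟨u, hu, rfl⟩
      exact ⟨u.2, hu⟩
    · rintro ⟨h, h'⟩
      exact ⟨⟨x, h⟩, h', rfl⟩
  obtain ⟨m, hm⟩ : ∃ m : ℕ, kJ d.t S₀ J = 2 * (m : ℤ) := by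
    have h1 := hk.mod
    have h2 := hk.few
    refine ⟨(kJ d.t S₀ J / 2).toNat, ?_⟩
    omega
  have hVm : V ≤ m := by
    have h2 := hk.few
    omega
  have hlar : 6 * m + 3 * V ≤ (J.filter fun e => ty e.2 = 0).card := by
    have h2 := hk.lar
    omega
  have hinj : Function.Injective (fun i : J => i.1.1) := by
    intro a b hab
    exact Subtype.ext (hk.inj (Finset.mem_coe.2 a.2) (Finset.mem_coe.2 b.2) hab)
  let lo : LinearOrder J := LinearOrder.lift' (fun i : J => i.1.1) hinj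
  have hbox := box_dec hBX d ht J lo (fun e => ty e.1.2) (fun i => CC u z H i)
    (fun i => XX H i.1.1) κ S₀ m V hA hκ
    (fun i => by
      refine (Finset.card_filter_le _ _).trans ?_
      rw [Nat.card_Icc]
      omega)
    hHB (fun v hv => hk.cl v hv)
    (fun i p hp => by
      obtain ⟨h3, h4, h5, h6⟩ := CC_facts hu hH hp
      refine ⟨h3, fun h => ?_, h6⟩
      have := hk.le p h
      omega)
    (fun i l hil => CC_disj hH i l hil)
    (by
      rw [c1, c1]
      exact hm)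
    hV hVm
    (by
      rw [c1]
      exact hlar)
  have e1 : ((Fintype.piFinset fun i : J => CC u z H i).filter fun p => NdE S₀ (univ.image p) ∧
      GdE d (S₀ ∪ univ.image p)).card = ((RE u a d.t X z H k V).filter fun S =>
        ky u z H S = (S₀, J) ∧ (NdE (sm z S) (la z S) ∧ GdE d S)).card := by
    rw [← key_bij hu ha hH hk (fun S => NdE (sm z S) (la z S) ∧ GdE d S)]
    congr 1
    refine Finset.filter_congr fun p hp => ?_
    rw [Fintype.mem_piFinset] at hp
    rw [sm_fill hH hk.le hp, la_fill hH hk.le hp]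
  have e2 : ((Fintype.piFinset fun i : J => CC u z H i).filter fun p =>
      NdE S₀ (univ.image p)).card = ((RE u a d.t X z H k V).filter fun S =>
        ky u z H S = (S₀, J) ∧ NdE (sm z S) (la z S)).card := by
    rw [← key_bij hu ha hH hk (fun S => NdE (sm z S) (la z S))]
    congr 1
    refine Finset.filter_congr fun p hp => ?_
    rw [Fintype.mem_piFinset] at hp
    rw [sm_fill hH hk.le hp, la_fill hH hk.le hp]
  rw [e1, e2] at hbox
  refine hbox.trans (add_le_add ?_ ?_)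
  · have h4 : (((RE u a d.t X z H k V).filter fun S => ky u z H S = (S₀, J) ∧
        NdE (sm z S) (la z S)).card : ℝ) ≤
        (((RE u a d.t X z H k V).filter fun S => ky u z H S = (S₀, J)).card : ℝ) := by
      have : (RE u a d.t X z H k V).filter (fun S => ky u z H S = (S₀, J) ∧
          NdE (sm z S) (la z S)) ⊆
          (RE u a d.t X z H k V).filter fun S => ky u z H S = (S₀, J) := by
        intro S hS
        rw [Finset.mem_filter] at hS ⊢
        exact ⟨hS.1, hS.2.1⟩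
      exact_mod_cast Finset.card_le_card this
    exact mul_le_mul_of_nonneg_left h4 (by positivity)
  · have hcJ : Fintype.card J = J.card := Fintype.card_coe J
    have hcard := hk.card
    have hJK : J.card ≤ k := by omega
    have hSK : S₀.card ≤ k := by omega
    obtain ⟨n, hn⟩ : ∃ n : ℕ, n = (@ps J _ lo).card := ⟨_, rfl⟩
    have hpr : n ≤ k * k := by
      rw [hn]
      refine (@ps_card J _ lo).trans ?_
      rw [hcJ]
      exact Nat.mul_le_mul hJK hJK
    rw [← hn]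
    have h5 : 3 * (2 : ℝ) ^ ((2 * S₀.card + 3) * Fintype.card J + n) ≤ 3 ^ (16 * k ^ 2 + 16) := by
      have hexp : (2 * S₀.card + 3) * Fintype.card J + n ≤ 16 * k ^ 2 + 15 := by
        rw [hcJ]
        have h6 : S₀.card * J.card ≤ k * k := Nat.mul_le_mul hSK hJK
        have h7 : k ≤ k * k := Nat.le_mul_self k
        have h8 : (2 * S₀.card + 3) * J.card + n = 2 * (S₀.card * J.card) + 3 * J.card + n := by
          ring
        have h9 : k ^ 2 = k * k := by ring
        rw [h8, h9]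
        omega
      calc 3 * (2 : ℝ) ^ ((2 * S₀.card + 3) * Fintype.card J + n) ≤ 3 * 2 ^ (16 * k ^ 2 + 15) :=
            mul_le_mul_of_nonneg_left (pow_le_pow_right₀ (by norm_num) hexp) (by norm_num)
        _ ≤ 3 * 3 ^ (16 * k ^ 2 + 15) :=
            mul_le_mul_of_nonneg_left (pow_le_pow_left₀ (by norm_num) (by norm_num) _) (by norm_num)
        _ = 3 ^ (16 * k ^ 2 + 16) := by
            rw [show 16 * k ^ 2 + 16 = (16 * k ^ 2 + 15) + 1 by ring, pow_succ]
            ring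
    have hN0 : (0 : ℝ) < ((∏ p ∈ S₀, p : ℕ) : ℝ) := by
      exact_mod_cast Finset.prod_pos fun p hp => (cl_prime (hk.cl p hp)).pos
    have hprod : ∏ j : J, (XX H j.1.1 : ℝ) ≤ X / ((∏ p ∈ S₀, p : ℕ) : ℝ) := by
      have h5 : ∏ j : J, (XX H j.1.1 : ℝ) = ((∏ k ∈ J, XX H k.1 : ℕ) : ℝ) := by
        rw [← Finset.prod_coe_sort J (fun k => XX H k.1)]
        push_cast
        rfl
      rw [h5, le_div_iff₀ hN0, mul_comm]
      exact_mod_cast hk.prod
    calc 3 * (2 : ℝ) ^ ((2 * S₀.card + 3) * Fintype.card J + n) *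
        (κ * ∏ j : J, (XX H j.1.1 : ℝ)) ≤
        3 ^ (16 * k ^ 2 + 16) * (κ * (X / ((∏ p ∈ S₀, p : ℕ) : ℝ))) := by gcongr
      _ = _ := by ring

/-- **E3-KEY.** -/
theorem t_KEYE (hBIL : S_BIL) (hBX : S_BXE) : S_KYE := by
  obtain ⟨C, hC1, hB⟩ := hBIL
  refine ⟨C, hC1, ?_⟩
  intro d ht hA u a X z H k V N κ hu hu1 ha hX hH hz hV hκ hκz hN
  set T := (RE u a d.t X z H k V).image (ky u z H) with hT
  set B : ℝ := 3 ^ (16 * k ^ 2 + 16) * κ with hBd
  have hB0 : 0 ≤ B := by positivity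
  have hfib : ∀ (P : Finset ℕ → Prop) [DecidablePred P],
      (((RE u a d.t X z H k V).filter fun S => P S).card : ℝ) =
      ∑ e ∈ T, (((RE u a d.t X z H k V).filter fun S => ky u z H S = e ∧ P S).card : ℝ) := by
    intro P _
    rw [Finset.card_eq_sum_card_fiberwise (f := ky u z H) (t := T) (by
      intro S hS
      rw [Finset.mem_coe, Finset.mem_filter] at hS
      exact Finset.mem_coe.2 (Finset.mem_image_of_mem _ hS.1))]
    push_cast
    refine Finset.sum_congr rfl fun e _ => ?_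
    congr 2
    ext S
    simp only [Finset.mem_filter]
    tauto
  have hKP : ∀ e ∈ T, KP u a d.t X z H k V e.1 e.2 := by
    intro e he
    rw [hT, Finset.mem_image] at he
    obtain ⟨S, hS, rfl⟩ := he
    obtain ⟨f1, f2, f3⟩ := rr_facts hS
    exact (rr_iff hu ha hH f1 (inj_ph f2)).1 hS
  have hf1 := hfib fun S => NdE (sm z S) (la z S) ∧ GdE d S
  have hf2 := hfib fun S => NdE (sm z S) (la z S)
  have hf3 := hfib fun _ => True
  simp only [and_true, Finset.filter_true] at hf3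
  rw [hf1, hf2, hf3, Finset.mul_sum, ← Finset.sum_sub_distrib]
  refine (Finset.abs_sum_le_sum_abs _ _).trans ?_
  have h3 : ∀ e ∈ T, |(((RE u a d.t X z H k V).filter fun S => ky u z H S = e ∧
        (NdE (sm z S) (la z S) ∧ GdE d S)).card : ℝ) -
      c2 * (((RE u a d.t X z H k V).filter fun S => ky u z H S = e ∧
        NdE (sm z S) (la z S)).card : ℝ)| ≤
      3 * (1 / 2 : ℝ) ^ V *
        (((RE u a d.t X z H k V).filter fun S => ky u z H S = e).card : ℝ) +
      B * (X / ((∏ p ∈ e.1, p : ℕ) : ℝ)) := by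
    intro e he
    obtain ⟨S₀, J⟩ := e
    have hk' := hKP _ he
    exact per_key hBX ht hA hu ha hH hV hκ hk' (hb_box hB hu hH hz hκ hκz)
  refine (Finset.sum_le_sum h3).trans ?_
  rw [Finset.sum_add_distrib, ← Finset.mul_sum]
  refine add_le_add le_rfl ?_
  have hsub : T ⊆ (TP X) ×ˢ
      ((range N ×ˢ range (3 * u + 1)).powerset.filter fun J => J.card ≤ k) := by
    intro e he
    have hk' := hKP e he
    rw [hT, Finset.mem_image] at he
    obtain ⟨S, hS, rfl⟩ := he
    obtain ⟨f1, f2, f3⟩ := rr_facts hS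
    rw [Finset.mem_product, Finset.mem_filter, Finset.mem_powerset]
    refine ⟨mem_TP (fun q hq => cl_prime (hk'.cl q hq)) ?_, ?_, ?_⟩
    · refine le_trans ?_ f3
      exact Nat.le_of_dvd (Finset.prod_pos fun p hp => (cl_prime (f1 p hp)).pos)
        (Finset.prod_dvd_prod_of_subset _ _ _ (Finset.filter_subset _ _))
    · intro e he
      unfold ky at he
      rw [Finset.mem_image] at he
      obtain ⟨q, hq, rfl⟩ := he
      have hqS := (Finset.mem_filter.1 hq).1
      have hq0 := (cl_prime (f1 q hqS)).pos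
      have hqX : q ≤ X := by
        refine le_trans ?_ f3
        exact Nat.le_of_dvd (Finset.prod_pos fun p hp => (cl_prime (f1 p hp)).pos)
          (Finset.dvd_prod_of_mem _ hqS)
      unfold ph
      rw [Finset.mem_product, Finset.mem_range, Finset.mem_range]
      constructor
      · have h3 : ((jj H q : ℕ) : ℝ) < N := by
          refine lt_of_le_of_lt (Nat.floor_le (mul_nonneg (Nat.cast_nonneg _)
            (Real.log_nonneg (by exact_mod_cast hq0)))) ?_
          refine lt_of_le_of_lt ?_ hN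
          refine mul_le_mul_of_nonneg_left ?_ (Nat.cast_nonneg _)
          exact Real.log_le_log (by exact_mod_cast hq0) (by exact_mod_cast hqX)
        exact_mod_cast h3
      · show q % (3 * u) < 3 * u + 1
        have := Nat.mod_lt q (by omega : 0 < 3 * u)
        omega
    · have := hk'.card
      omega
  refine (Finset.sum_le_sum_of_subset_of_nonneg hsub fun _ _ _ => by positivity).trans ?_
  rw [Finset.sum_product]
  simp only [Finset.sum_const, nsmul_eq_mul]
  rw [← Finset.mul_sum]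
  have h4 : ((((range N ×ˢ range (3 * u + 1)).powerset.filter fun J => J.card ≤ k).card : ℕ) : ℝ) ≤
      (9 * (u * N) + 9 : ℝ) ^ k := by
    have h5 := card_sub (range N ×ˢ range (3 * u + 1)) k
    rw [Finset.card_product, Finset.card_range, Finset.card_range] at h5
    calc ((((range N ×ˢ range (3 * u + 1)).powerset.filter fun J => J.card ≤ k).card : ℕ) : ℝ) ≤
          (((N * (3 * u + 1) + 1) ^ k : ℕ) : ℝ) := by exact_mod_cast h5
      _ = (N * (3 * u + 1) + 1 : ℝ) ^ k := by push_cast; ring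
      _ ≤ _ := by
        apply pow_le_pow_left₀ (by positivity)
        have h6 : (0 : ℝ) ≤ N := Nat.cast_nonneg _
        have h7 : (1 : ℝ) ≤ u := by exact_mod_cast hu1
        nlinarith
  have h5 : ∑ S ∈ TP X, B * (X / ((∏ p ∈ S, p : ℕ) : ℝ)) ≤ B * (X * (1 + Real.log X)) := by
    have h6 : ∀ S ∈ TP X, B * ((X : ℝ) / ((∏ p ∈ S, p : ℕ) : ℝ)) =
        B * X * (1 / ((∏ p ∈ S, p : ℕ) : ℝ)) := by
      intro S _
      ring
    rw [Finset.sum_congr rfl h6, ← Finset.mul_sum]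
    have h7 := mul_le_mul_of_nonneg_left (harm_TP X) (mul_nonneg hB0 (Nat.cast_nonneg X))
    refine h7.trans (le_of_eq ?_)
    ring
  have h6 : 0 ≤ ∑ S ∈ TP X, B * ((X : ℝ) / ((∏ p ∈ S, p : ℕ) : ℝ)) :=
    Finset.sum_nonneg fun _ _ => by positivity
  rw [mul_assoc]
  gcongr

end Pool.Agent.L0h74.E3.KEY
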