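import Mathlib
import Pool.Agent.L0h74.E3.Stm
import Pool.Agent.L0h74.EV.NEG

/-! # E3: `kE` is not negative for the good sets -/

set_option autoImplicit false

open scoped Classical

namespace Pool.Agent.L0h74.E3.NEG

open Finset
open Pool.Agent.N973.ND (card_Z)
open Pool.Agent.L0h74.E3
open Pool.Agent.L0h74.T3 (m3 m3_le ty kd)
open Pool.Agent.L0h74.EV.NEG (card_iN)

theorem t_NEGE : ∀ (d : Dt) (S : Finset ℕ), (d.t = 0 ∨ d.t = 1) → GdE d S → 0 ≤ kE d.t S := by
  intro d S ht hG
  obtain ⟨h1, -⟩ := hG
  have h2 := card_Z h1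
  set Sp := univ.filter fun i : insertNone S => m3O (i : Option ℕ) = 1 with hSp
  set Pc := univ.filter fun i : insertNone S => tyO d.t (i : Option ℕ) = 2 ∨
    tyO d.t (i : Option ℕ) = 1 with hPc
  have h3 : Pc.card ≤ Sp.card := by
    by_contra hc
    push Not at hc
    have h4 : 2 ^ Sp.card < 2 ^ Pc.card := Nat.pow_lt_pow_right (by norm_num) hc
    have h5 : 0 < 2 ^ Sp.card := by positivity
    rw [← h2] at h5 h4
    have h7 := Nat.le_mul_of_pos_left (2 ^ Pc.card) (pos_of_mul_pos_left h5 (Nat.zero_le _))
    exact absurd h7 (not_le.2 h4)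
  have e1 : Sp.card = (S.filter fun p => m3 p = 1).card := by
    have e0 : Sp.card = ((insertNone S).filter fun x => m3O x = 1).card := by
      rw [hSp, ← Finset.card_map (Function.Embedding.subtype _)]
      congr 1
      ext p
      simp [and_comm]
    rw [e0, card_iN, if_neg (show ¬ m3O none = 1 from by norm_num [m3O]), add_zero]
    rfl
  have e2 : Pc.card = (S.filter fun p => ty p = 2 ∨ ty p = 1).card + if d.t = 1 then 1 else 0 := by
    have e0 : Pc.card = ((insertNone S).filter fun x => tyO d.t x = 2 ∨ tyO d.t x = 1).card := by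
      rw [hPc, ← Finset.card_map (Function.Embedding.subtype _)]
      congr 1
      ext p
      simp [and_comm]
    rw [e0, card_iN]
    congr 1
    have : (tyO d.t none = 2 ∨ tyO d.t none = 1) ↔ d.t = 1 := by
      show (d.t = 2 ∨ d.t = 1) ↔ d.t = 1
      rcases ht with h | h <;> rw [h] <;> norm_num
    by_cases h : d.t = 1
    · rw [if_pos (this.2 h), if_pos h]
    · rw [if_neg (fun h' => h (this.1 h')), if_neg h]
  have t1 : (S.filter fun p => m3 p = 1) =
      (S.filter fun p => ty p = 2) ∪ (S.filter fun p => ty p = 3) := by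
    rw [← filter_or]
    apply filter_congr
    intro p _
    have := m3_le p
    unfold ty
    split_ifs <;> omega
  have t2 : (S.filter fun p => ty p = 2 ∨ ty p = 1) =
      (S.filter fun p => ty p = 2) ∪ (S.filter fun p => ty p = 1) := filter_or _ _ _
  have d1 : Disjoint (S.filter fun p => ty p = 2) (S.filter fun p => ty p = 3) := by
    rw [disjoint_filter]
    intro p _ h
    omega
  have d2 : Disjoint (S.filter fun p => ty p = 2) (S.filter fun p => ty p = 1) := by
    rw [disjoint_filter]
    intro p _ h
    omega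
  rw [e1, e2, t1, t2, card_union_of_disjoint d1, card_union_of_disjoint d2] at h3
  unfold kE kd
  rcases ht with h | h
  · rw [if_neg (by omega)] at h3
    rw [if_neg (by omega)]
    omega
  · rw [if_pos h] at h3
    rw [if_pos h]
    omega

end Pool.Agent.L0h74.E3.NEG
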