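import Mathlib
import Pool.Agent.L0h74.E3.Den
import Pool.Agent.L0h74.E3.KEYo

/-! # E3: the final asymptotics in the classes, `D ≡ 1` modulo `4` -/

set_option autoImplicit false
set_option linter.unusedVariables false

open scoped Classical
open Finset Filter
open scoped Topology

namespace Pool.Agent.L0h74.E3.DenO

open Pool.Agent.L0h74.T3 (Pr m3 ty SA kd RecA CntP n0 Gd Nd)
open Pool.Agent.L0h74.E3 (Cg GSg Cp SE)
open Pool.Agent.L0h74.E3.KEYo (RG S_KYO)
open Pool.Agent.L0h74.E3.Den (sml_mainE SE_sub)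
open Pool.Agent.Y703.CQ (c2)
open Pool.Agent.Y703
open Pool.Agent.Y703.CX (sm la jj XX eL zz kk eL_tendsto logX_eq HH ev_eL one_le_exp
  HH_ge HH_le HH_pos kk_ge kk_le X_pos one_add_log lin_le kap zz_ge zz_pos kap_nonneg kap_pow kap_le)
open Pool.Agent.N218.GB.Asy (Sml sml_of sml_add sml_eps cmp log_three)
open Pool.Agent.L0h74.KD.Den (c2_mem)
open Pool.Agent.L0h74.T3.Den (sml_many sml_cut sml_coll SA_card)
open Pool.Agent.L0h74.T3.NEG (t_NEG)

/-- the half law -/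
theorem t_KD' {g u₀ a₀ u a : ℕ} (hg : Cg g u₀ a₀) (hu : u = g * u₀) (ha : a = g * a₀)
    (M : ℤ) : ∀ ε : ℝ, 0 < ε → ∃ X₀ : ℕ, ∀ X : ℕ,
    X₀ ≤ X → |(((SE u a X).filter fun S => M ≤ kd S).card : ℝ) -
      1 / 2 * ((SE u a X).card : ℝ)| ≤ ε * X := by
  subst hu ha
  exact Pool.Agent.L0h74.E3.t_KD hg M

/-- the sets outside the regular part -/
theorem out_sub {u a : ℕ} (X z H k V : ℕ) :
    ((SE u a X).filter fun S => 2 * (V : ℤ) ≤ kd S) \
      ((RG u a X z H k V).filter fun S => Nd (sm z S) (la z S)) ⊆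
      (((((SA X).filter fun S => k < S.card) ∪
      ((SA X).filter fun S => S.card ≤ k ∧
        X < (∏ p ∈ sm z S, p) * ∏ p ∈ la z S, XX H (jj H p))) ∪
      ((SA X).filter fun S => ¬ Set.InjOn (jj H) (la z S : Set ℕ))) ∪
      ((SA X).filter fun S => (n0 z S : ℤ) < 3 * kd S + ((3 * V : ℕ) : ℤ))) ∪
      ((SA X).filter fun S => S.card ≤ k ∧ ¬ Nd (sm z S) (la z S)) := by
  intro S hS
  rw [Finset.mem_sdiff, Finset.mem_filter, Finset.mem_filter] at hS
  obtain ⟨⟨h1', hV⟩, h2⟩ := hS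
  have h1 := SE_sub X h1'
  simp only [mem_union, mem_filter]
  by_contra hc
  push Not at hc
  obtain ⟨⟨⟨⟨c1, c2⟩, c3⟩, c4⟩, c5⟩ := hc
  have d1 : S.card ≤ k := c1 h1
  have d2 := c2 h1 d1
  have d3 := c3 h1
  have d4 := c4 h1
  have d5 := c5 h1 d1
  apply h2
  refine ⟨?_, d5⟩
  unfold RG
  rw [mem_filter]
  refine ⟨h1', d3, d1, d2, hV, ?_⟩
  push_cast at d4
  linarith

/-- **The proportion of the good sets.** -/
theorem t_DQO (hKY : S_KYO) (A : ℕ → ℕ → ZMod 2) (b : ℕ → ZMod 2) (hA : RecA A) {g u₀ a₀ u a : ℕ} (hg : Cg g u₀ a₀)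
    (hu : u = g * u₀) (ha : a = g * a₀)
    (ha4 : a % 4 = 1) :
    ∀ ε : ℝ, 0 < ε → ∀ᶠ X : ℕ in atTop,
      |(((SE u a X).filter (Gd A b)).card : ℝ) - c2 / 2 * ((SE u a X).card : ℝ)| ≤ ε * X := by
  intro ε hε
  have hu1 : 1 ≤ u := by rw [hu]; exact hg.Upos
  have h4 : 4 ∣ u := by rw [hu]; exact Dvd.dvd.mul_left hg.four g
  -- the parameter `V`
  obtain ⟨V₀, hV₀⟩ := exists_pow_lt_of_lt_one (show 0 < ε / 12 by positivity)
    (show (1 / 2 : ℝ) < 1 by norm_num)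
  obtain ⟨V, hV1, hV2⟩ : ∃ V : ℕ, 1 ≤ V ∧ (1 / 2 : ℝ) ^ V ≤ ε / 12 := by
    refine ⟨V₀ + 1, by omega, ?_⟩
    rw [pow_succ]
    have : (0 : ℝ) < (1 / 2 : ℝ) ^ V₀ := by positivity
    linarith
  obtain ⟨C, hC1, hkey⟩ := hKY
  have s1 := sml_many Pool.Agent.L0h74.T3.CNT.t_CNT
  have s2 := sml_cut Pool.Agent.L0h74.T3.CNT.t_CNT
  have s3 := sml_coll Pool.Agent.L0h74.T3.CNT.t_CNT
  have s4 := sml_eps (Pool.Agent.L0h74.T3.FEW.t_FEW (3 * V))
  have s5 := sml_eps Pool.Agent.L0h74.T3.BAD.t_BAD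
  have s8 := sml_mainE u hC1
  have stot := sml_add (sml_add (sml_add (sml_add (sml_add s1 s2) s3) s4) s5) s8
  have hev := stot (ε / 4) (by linarith)
  obtain ⟨X₁, hX₁⟩ := t_KD' hg hu ha (2 * (V : ℤ)) (ε / 8) (by linarith)
  obtain ⟨X₂, hX₂⟩ := t_KD' hg hu ha 0 (ε / 8) (by linarith)
  filter_upwards [hev, ev_eL 1, eventually_ge_atTop X₁, eventually_ge_atTop X₂] with X hX hl hk1 hk2
  have hKD1 := hX₁ X hk1
  have hKD2 := hX₂ X hk2
  have hl0 : 0 < eL X := by linarith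
  have hXp := X_pos hl0
  have hNN : (HH X : ℝ) * Real.log X < CX.NN X := by
    unfold CX.NN
    push_cast
    exact Nat.lt_floor_add_one _
  have hmain := hkey A b hA u a X (zz X) (HH X) (kk X) V (CX.NN X) (kap C X) h4 hu1 ha4 hXp
    (HH_pos hl0) (zz_pos hl) hV1 (kap_nonneg hC1 X) (kap_pow hC1 hl) hNN
  set T := (RG u a X (zz X) (HH X) (kk X) V).filter
    fun S => Nd (sm (zz X) S) (la (zz X) S) with hT
  set R := (SE u a X).filter fun S => 2 * (V : ℤ) ≤ kd S with hR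
  have hTG : (RG u a X (zz X) (HH X) (kk X) V).filter
      (fun S => Nd (sm (zz X) S) (la (zz X) S) ∧ Gd A b S) = T.filter (Gd A b) := by
    rw [hT, filter_filter]
  rw [hTG] at hmain
  have hTR : T ⊆ R := by
    intro S hS
    rw [hT, mem_filter, RG, mem_filter] at hS
    rw [hR, mem_filter]
    exact ⟨hS.1.1, hS.1.2.2.2.2.1⟩
  have hRS : ((RG u a X (zz X) (HH X) (kk X) V).card : ℝ) ≤ X := by
    exact_mod_cast (card_le_card ((filter_subset _ _).trans (SE_sub X))).trans (SA_card X)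
  have hcmp := cmp (Gd A b) T R hTR c2 c2_mem.1 c2_mem.2
  have hout : ((R \ T).card : ℝ) ≤
      ((((((SA X).filter fun S => kk X < S.card).card : ℝ) +
      (((SA X).filter fun S => S.card ≤ kk X ∧
        X < (∏ p ∈ sm (zz X) S, p) * ∏ p ∈ la (zz X) S, XX (HH X) (jj (HH X) p)).card : ℝ)) +
      (((SA X).filter fun S => ¬ Set.InjOn (jj (HH X)) (la (zz X) S : Set ℕ)).card : ℝ)) +
      (((SA X).filter fun S => (n0 (zz X) S : ℤ) < 3 * kd S + ((3 * V : ℕ) : ℤ)).card : ℝ) +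
      (((SA X).filter fun S => S.card ≤ kk X ∧ ¬ Nd (sm (zz X) S) (la (zz X) S)).card : ℝ)) := by
    have g := card_le_card (out_sub (u := u) (a := a) X (zz X) (HH X) (kk X) V)
    rw [← hT, ← hR] at g
    have g2 := (g.trans (card_union_le _ _)).trans
      (Nat.add_le_add_right ((card_union_le _ _).trans
      (Nat.add_le_add_right ((card_union_le _ _).trans
      (Nat.add_le_add_right (card_union_le _ _) _)) _)) _)
    exact_mod_cast g2
  have g1 : 3 * (1 / 2 : ℝ) ^ V * ((RG u a X (zz X) (HH X) (kk X) V).card : ℝ) ≤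
      ε / 4 * X := by
    refine mul_le_mul ?_ hRS (Nat.cast_nonneg _) (by positivity)
    linarith
  -- the good sets outside `R`
  have hsplit : ((SE u a X).filter (Gd A b)).card ≤ (R.filter (Gd A b)).card +
      (((SE u a X).filter fun S => 0 ≤ kd S).card - R.card) ∧
      R.card ≤ ((SE u a X).filter fun S => 0 ≤ kd S).card ∧
      (R.filter (Gd A b)).card ≤ ((SE u a X).filter (Gd A b)).card := by
    have hRsub : R ⊆ (SE u a X).filter fun S => 0 ≤ kd S := by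
      intro S hS
      rw [hR, mem_filter] at hS
      rw [mem_filter]
      refine ⟨hS.1, ?_⟩
      have := hS.2
      linarith [Int.natCast_nonneg V]
    refine ⟨?_, card_le_card hRsub, card_le_card (filter_subset_filter _ (filter_subset _ _))⟩
    rw [← card_sdiff_of_subset hRsub]
    refine (card_le_card ?_).trans (card_union_le _ _)
    intro S hS
    rw [mem_filter] at hS
    obtain ⟨h1, h2⟩ := hS
    have h3 : 0 ≤ kd S := by
      refine t_NEG A b S ?_ h2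
      rw [SE, mem_filter] at h1
      exact h1.2.1.1
    rw [mem_union]
    by_cases h4 : 2 * (V : ℤ) ≤ kd S
    · left
      rw [mem_filter, hR, mem_filter]
      exact ⟨⟨h1, h4⟩, h2⟩
    · right
      rw [Finset.mem_sdiff, Finset.mem_filter, hR, Finset.mem_filter]
      exact ⟨⟨h1, h3⟩, fun h5 => h4 h5.2⟩
  obtain ⟨q1, q2, q3⟩ := hsplit
  have q1' : (((SE u a X).filter (Gd A b)).card : ℝ) ≤ ((R.filter (Gd A b)).card : ℝ) +
      ((((SE u a X).filter fun S => 0 ≤ kd S).card : ℝ) - (R.card : ℝ)) := by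
    rw [← Nat.cast_sub q2]
    exact_mod_cast q1
  have q3' : ((R.filter (Gd A b)).card : ℝ) ≤ (((SE u a X).filter (Gd A b)).card : ℝ) := by
    exact_mod_cast q3
  have k1 := abs_le.1 hKD1
  have k2 := abs_le.1 hKD2
  have k3 := abs_le.1 hmain
  have k4 : |((R.filter (Gd A b)).card : ℝ) - c2 * (R.card : ℝ)| ≤ ε / 2 * X := by
    linarith
  have k5 := abs_le.1 k4
  obtain ⟨m0, m1⟩ := c2_mem
  have k6 : |c2 * ((R.card : ℝ) - 1 / 2 * ((SE u a X).card : ℝ))| ≤ ε / 8 * X := by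
    rw [abs_mul, abs_of_nonneg m0]
    calc c2 * |(R.card : ℝ) - 1 / 2 * ((SE u a X).card : ℝ)| ≤
        1 * |(R.card : ℝ) - 1 / 2 * ((SE u a X).card : ℝ)| :=
          mul_le_mul_of_nonneg_right m1 (abs_nonneg _)
      _ ≤ ε / 8 * X := by rw [one_mul]; exact hKD1
  have k7 := abs_le.1 k6
  have k8 : ((((SE u a X).filter fun S => 0 ≤ kd S).card : ℝ) - (R.card : ℝ)) ≤
      ε / 4 * X := by
    have e1 := k2.2
    have e2 := k1.1
    linarith
  have k9 : (0 : ℝ) ≤ ε * X := by positivity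
  rw [abs_le]
  constructor
  · have u1 := k5.1
    have u2 := k7.1
    clear k1 k2 k3 k4 k5 k6 k7 hX hev hmain stot hout hcmp g1
    linarith
  · have u1 := k5.2
    have u2 := k7.2
    have u3 := q1'.trans (add_le_add le_rfl k8)
    clear k1 k2 k3 k4 k5 k6 k7 hX hev hmain stot hout hcmp g1 k8 q1' hKD1 hKD2 q3'
    linarith


theorem kyo : S_KYO := Pool.Agent.L0h74.E3.KEYo.t_KEYO Pool.Agent.N19.GB.t_BIL Pool.Agent.L0h74.T3.t_BX

/-- **The proportion in a class, `D ≡ 1` modulo `4`.** -/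
theorem dqO {g u a : ℕ} (hg : Cg g u a) (ha : (g * a) % 4 = 1) (A : ℕ → ℕ → ZMod 2)
    (b : ℕ → ZMod 2) (hA : RecA A) : ∀ ε : ℝ, 0 < ε → ∀ᶠ X : ℕ in atTop,
      |(((GSg g u a X).filter fun D => Gd A b D.primeFactors).card : ℝ) -
        c2 / 2 * ((GSg g u a X).card : ℝ)| ≤ ε * X := by
  intro ε hε
  filter_upwards [t_DQO kyo A b hA hg rfl rfl ha ε hε] with X hX
  rw [Pool.Agent.L0h74.E3.card_eq hg X (Gd A b), Pool.Agent.L0h74.E3.card_eq0 hg] at hX
  exact hX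


end Pool.Agent.L0h74.E3.DenO
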