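import Mathlib
import Pool.Agent.L0h74.AP.Cls

/-!
# E3: the square-free part prime to three
-/

set_option autoImplicit false
set_option linter.unusedSectionVars false
set_option linter.unusedVariables false

open scoped Classical

namespace Pool.Agent.L0h74.E3

open Finset Filter
open scoped Topology

/-- the primes different from `3` which divide `n` to an odd power -/
def Ds (n : ℤ) : Finset ℕ :=
  n.natAbs.primeFactors.filter fun p => p ≠ 3 ∧ n.natAbs.factorization p % 2 = 1

/-- the square-free part prime to `3` of `|n|` -/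
def Dn (n : ℤ) : ℕ := ∏ p ∈ Ds n, p

theorem Ds_prime {n : ℤ} {p : ℕ} (h : p ∈ Ds n) : p.Prime := by
  rw [Ds, mem_filter] at h
  exact Nat.prime_of_mem_primeFactors h.1

theorem Dn_pf (n : ℤ) : (Dn n).primeFactors = Ds n :=
  Nat.primeFactors_prod fun p hp => Ds_prime hp

theorem Dn_sq (n : ℤ) : Squarefree (Dn n) := by
  refine Finset.squarefree_prod_of_pairwise_isCoprime (fun p hp q hq hpq => ?_)
    fun p hp => (Ds_prime hp).prime.squarefree
  rw [Function.onFun, ← Nat.coprime_iff_isRelPrime]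
  exact (Nat.coprime_primes (Ds_prime hp) (Ds_prime hq)).2 hpq

theorem Dn_dvd {n : ℤ} {p : ℕ} (hp : p.Prime) : p ∣ Dn n ↔ p ∈ Ds n := by
  rw [← Dn_pf, Nat.mem_primeFactors]
  constructor
  · exact fun h => ⟨hp, h, (Dn_sq n).ne_zero⟩
  · exact fun h => h.2.1

theorem Dn_three (n : ℤ) : ¬ 3 ∣ Dn n := by
  rw [Dn_dvd (by norm_num), Ds, mem_filter]
  exact fun h => h.2.1 rfl

theorem Ds_mul {u : ℕ} (hu : 6 ∣ u) {s : ℤ} (hs : s = 1 ∨ s = -1) {g m : ℕ} (hg0 : g ≠ 0)
    (hgu : g ∣ u) {d : ℤ} (hd0 : d ≠ 0) (hd : ∀ p, p.Prime → p ∣ d.natAbs → p ∣ u)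
    (hm : Squarefree m) (hc : Nat.Coprime m u) :
    Ds (s * g * m * d) = Ds (g * d) ∪ m.primeFactors ∧ Disjoint (Ds (g * d)) m.primeFactors := by
  have hn : (s * g * m * d : ℤ).natAbs = (g * d.natAbs) * m := by
    rw [Int.natAbs_mul, Int.natAbs_mul, Int.natAbs_mul, Int.natAbs_natCast, Int.natAbs_natCast]
    rcases hs with rfl | rfl
    · simp; ring
    · simp; ring
  have hn' : (g * d : ℤ).natAbs = g * d.natAbs := by
    rw [Int.natAbs_mul, Int.natAbs_natCast]
  have hA0 : g * d.natAbs ≠ 0 := mul_ne_zero hg0 (Int.natAbs_ne_zero.2 hd0)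
  have hm0 : m ≠ 0 := hm.ne_zero
  have hpu : ∀ p, p.Prime → p ∣ g * d.natAbs → p ∣ u := by
    intro p hp h
    rcases (Nat.Prime.dvd_mul hp).1 h with h | h
    · exact h.trans hgu
    · exact hd p hp h
  have hcop : ∀ p, p.Prime → p ∣ m → ¬ p ∣ u := by
    intro p hp h h'
    have := Nat.dvd_gcd h h'
    rw [hc] at this
    exact hp.one_lt.ne' (Nat.dvd_one.1 this)
  have hAm : Nat.Coprime (g * d.natAbs) m := by
    rw [Nat.coprime_iff_gcd_eq_one]
    by_contra hne
    obtain ⟨p, hp, hd'⟩ := Nat.exists_prime_and_dvd hne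
    exact hcop p hp (hd'.trans (Nat.gcd_dvd_right _ _)) (hpu p hp (hd'.trans (Nat.gcd_dvd_left _ _)))
  have hfac : ∀ p, ((g * d.natAbs) * m).factorization p =
      (g * d.natAbs).factorization p + m.factorization p := by
    intro p
    rw [Nat.factorization_mul hA0 hm0]
    rfl
  constructor
  · ext p
    unfold Ds
    rw [hn, hn', mem_union, mem_filter, mem_filter, hfac]
    rw [Nat.Coprime.primeFactors_mul hAm, mem_union]
    constructor
    · rintro ⟨h1, h2, h3⟩
      rcases h1 with h1 | h1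
      · left
        have hp := Nat.prime_of_mem_primeFactors h1
        have hpm : ¬ p ∣ m := fun h' => hcop p hp h' (hpu p hp (Nat.dvd_of_mem_primeFactors h1))
        rw [Nat.factorization_eq_zero_of_not_dvd hpm, add_zero] at h3
        exact ⟨h1, h2, h3⟩
      · right; exact h1
    · rintro (⟨h1, h2, h3⟩ | h1)
      · have hp := Nat.prime_of_mem_primeFactors h1
        have hpm : ¬ p ∣ m := fun h' => hcop p hp h' (hpu p hp (Nat.dvd_of_mem_primeFactors h1))
        rw [Nat.factorization_eq_zero_of_not_dvd hpm, add_zero]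
        exact ⟨Or.inl h1, h2, h3⟩
      · have hp := Nat.prime_of_mem_primeFactors h1
        have hpm := Nat.dvd_of_mem_primeFactors h1
        have hpA : ¬ p ∣ g * d.natAbs := fun h' => hcop p hp hpm (hpu p hp h')
        have h7 : p ≠ 3 := by
          rintro rfl
          exact hcop 3 hp hpm ((by norm_num : 3 ∣ 6).trans hu)
        have h1' : m.factorization p = 1 := by
          have a1 := hm.natFactorization_le_one p
          have a2 := (hp.dvd_iff_one_le_factorization hm0).1 hpm
          omega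
        rw [Nat.factorization_eq_zero_of_not_dvd hpA, h1']
        exact ⟨Or.inr h1, h7, rfl⟩
  · rw [Finset.disjoint_left]
    intro p h1 h2
    rw [Ds, mem_filter, hn'] at h1
    exact hcop p (Nat.prime_of_mem_primeFactors h2) (Nat.dvd_of_mem_primeFactors h2)
      (hpu p (Nat.prime_of_mem_primeFactors h2) (Nat.dvd_of_mem_primeFactors h1.1))

theorem Dn_mul {u : ℕ} (hu : 6 ∣ u) {s : ℤ} (hs : s = 1 ∨ s = -1) {g m : ℕ} (hg0 : g ≠ 0)
    (hgu : g ∣ u) {d : ℤ} (hd0 : d ≠ 0) (hd : ∀ p, p.Prime → p ∣ d.natAbs → p ∣ u)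
    (hm : Squarefree m) (hc : Nat.Coprime m u) :
    Dn (s * g * m * d) = Dn (g * d) * m := by
  obtain ⟨h1, h2⟩ := Ds_mul hu hs hg0 hgu hd0 hd hm hc
  unfold Dn
  rw [h1, prod_union h2, Nat.prod_primeFactors_of_squarefree hm]

theorem Dn_decomp {n : ℤ} (hn : n ≠ 0) : ∃ t : ℕ, t ≠ 0 ∧
    ((Even (padicValInt 3 n) ∧ n.natAbs = Dn n * t ^ 2) ∨
      (Odd (padicValInt 3 n) ∧ n.natAbs = 3 * Dn n * t ^ 2)) := by
  have h7p : Fact (Nat.Prime 3) := ⟨by norm_num⟩
  have hn0 : n.natAbs ≠ 0 := Int.natAbs_ne_zero.2 hn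
  obtain ⟨a, b, hab, hsq⟩ := Nat.sq_mul_squarefree n.natAbs
  have hb0 : b ≠ 0 := by
    rintro rfl
    apply hn0
    rw [← hab]
    simp
  have ha0 : a ≠ 0 := hsq.ne_zero
  have hfac : ∀ p, n.natAbs.factorization p = 2 * b.factorization p + a.factorization p := by
    intro p
    rw [← hab, Nat.factorization_mul (pow_ne_zero 2 hb0) ha0, Nat.factorization_pow]
    simp
  have ha1 : ∀ p, a.factorization p ≤ 1 := fun p => hsq.natFactorization_le_one p
  have hmem : ∀ p, p.Prime → (p ∣ a ↔ a.factorization p = 1) := by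
    intro p hp
    rw [hp.dvd_iff_one_le_factorization ha0]
    have := ha1 p
    omega
  have hDs : Ds n = a.primeFactors.filter fun p => p ≠ 3 := by
    ext p
    rw [Ds, mem_filter, mem_filter, Nat.mem_primeFactors, Nat.mem_primeFactors, hfac]
    constructor
    · rintro ⟨⟨h1, h2, h3⟩, h4, h5⟩
      refine ⟨⟨h1, (hmem p h1).2 ?_, ha0⟩, h4⟩
      have := ha1 p
      omega
    · rintro ⟨⟨h1, h2, h3⟩, h4⟩
      have h5 := (hmem p h1).1 h2
      refine ⟨⟨h1, ?_, hn0⟩, h4, by omega⟩
      rw [← hab]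
      exact Dvd.dvd.mul_left h2 _
  have hval : padicValInt 3 n = 2 * b.factorization 3 + a.factorization 3 := by
    rw [← hfac]
    unfold padicValInt
    rw [Nat.factorization_def _ (by norm_num : Nat.Prime 3)]
  refine ⟨b, hb0, ?_⟩
  by_cases h7 : 3 ∣ a
  · right
    have h1 := (hmem 3 (by norm_num)).1 h7
    refine ⟨by rw [hval, h1]; exact ⟨_, rfl⟩, ?_⟩
    have h2 : 3 * Dn n = a := by
      have h3 : a.primeFactors = insert 3 (Ds n) := by
        rw [hDs]
        ext p
        rw [mem_insert, mem_filter]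
        constructor
        · intro h
          by_cases hp : p = 3
          · left; exact hp
          · right; exact ⟨h, hp⟩
        · rintro (rfl | h)
          · exact Nat.mem_primeFactors.2 ⟨by norm_num, h7, ha0⟩
          · exact h.1
      have h4 : 3 ∉ Ds n := by
        rw [hDs, mem_filter]
        exact fun h => h.2 rfl
      have h5 := Nat.prod_primeFactors_of_squarefree hsq
      rw [h3, prod_insert h4] at h5
      exact h5
    rw [h2, ← hab]
    ring
  · left
    have h1 : a.factorization 3 = 0 := Nat.factorization_eq_zero_of_not_dvd h7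
    refine ⟨by rw [hval, h1, add_zero]; exact even_two_mul _, ?_⟩
    have h2 : Dn n = a := by
      have h3 : a.primeFactors = Ds n := by
        rw [hDs]
        symm
        rw [filter_eq_self]
        rintro p hp rfl
        exact h7 (Nat.dvd_of_mem_primeFactors hp)
      have h5 := Nat.prod_primeFactors_of_squarefree hsq
      rw [h3] at h5
      exact h5
    rw [h2, ← hab]
    ring

/-- the square-free part prime to `3` is determined -/
theorem Dn_unique {D : ℕ} (hsf : Squarefree D) (h7 : ¬ 3 ∣ D) {n t : ℤ} (ht : t ≠ 0)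
    (hn : n = D * t ^ 2 ∨ n = -3 * D * t ^ 2) : Dn n = D := by
  have h7p : Nat.Prime 3 := by norm_num
  have hD0 := hsf.ne_zero
  have ht0 : t.natAbs ≠ 0 := Int.natAbs_ne_zero.2 ht
  have hn0 : n.natAbs = D * t.natAbs ^ 2 ∨ n.natAbs = 3 * D * t.natAbs ^ 2 := by
    rcases hn with rfl | rfl
    · left
      rw [Int.natAbs_mul, Int.natAbs_pow, Int.natAbs_natCast]
    · right
      rw [Int.natAbs_mul, Int.natAbs_mul, Int.natAbs_pow, Int.natAbs_natCast]
      rfl
  have hfac : ∀ p, p ≠ 3 → n.natAbs.factorization p = D.factorization p + 2 * t.natAbs.factorization p := by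
    intro p hp
    rcases hn0 with h | h
    · rw [h, Nat.factorization_mul hD0 (pow_ne_zero 2 ht0), Nat.factorization_pow]
      simp
    · rw [h, Nat.factorization_mul (mul_ne_zero (by norm_num) hD0) (pow_ne_zero 2 ht0),
        Nat.factorization_mul (by norm_num) hD0, Nat.factorization_pow, h7p.factorization]
      simp only [Finsupp.coe_add, Finsupp.coe_smul, Pi.add_apply, Pi.smul_apply, smul_eq_mul]
      rw [Finsupp.single_eq_of_ne hp]
      ring
  have hD1 : ∀ p, D.factorization p ≤ 1 := fun p => hsf.natFactorization_le_one p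
  have hna0 : n.natAbs ≠ 0 := by
    rcases hn0 with h | h
    · rw [h]
      exact mul_ne_zero hD0 (pow_ne_zero 2 ht0)
    · rw [h]
      exact mul_ne_zero (mul_ne_zero (by norm_num) hD0) (pow_ne_zero 2 ht0)
  have hset : Ds n = D.primeFactors := by
    ext p
    rw [Ds, Finset.mem_filter, Nat.mem_primeFactors, Nat.mem_primeFactors]
    constructor
    · rintro ⟨⟨h1, h2, h3⟩, h4, h5⟩
      refine ⟨h1, ?_, hD0⟩
      rw [hfac p h4] at h5
      rw [h1.dvd_iff_one_le_factorization hD0]
      have := hD1 p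
      omega
    · rintro ⟨h1, h2, h3⟩
      have hp7 : p ≠ 3 := by
        rintro rfl
        exact h7 h2
      have h4 : D.factorization p = 1 := by
        have h5 := (h1.dvd_iff_one_le_factorization hD0).1 h2
        have := hD1 p
        omega
      refine ⟨⟨h1, ?_, hna0⟩, hp7, by rw [hfac p hp7]; omega⟩
      rw [h1.dvd_iff_one_le_factorization hna0, hfac p hp7]
      omega
  unfold Dn
  rw [hset]
  exact Nat.prod_primeFactors_of_squarefree hsf


end Pool.Agent.L0h74.E3
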