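import Mathlib
import Pool.Agent.L0h74.AP.Cls

/-!
# E3: sets of square-free integers defined by conditions on the sign and on a modulus (a variant of
`Pool/Agent/L0h74/AP/Cls.lean`: the hypothesis is needed for the classes in the set only)
-/

set_option autoImplicit false
set_option linter.unusedSectionVars false
set_option linter.unusedVariables false

open scoped Classical

namespace Pool.Agent.L0h74.E3

open Finset Filter
open scoped Topology
open Pool.Agent.L0h74.AP (key ClassFn HtFn key_mul dec KK' cnt cnt_eq Cp GS card_low tendsto_div_nat)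

/-- **The general statement.** -/
theorem ratioT {u : ℕ} (hu : 14 ∣ u) (hu0 : 0 < u) {N : ℤ → ℕ} (hNF : HtFn u N) {T : ℤ → Prop}
    (hT : ClassFn u T) {e₀ : ℤ} (he₀ : Squarefree e₀) (hTe₀ : T e₀) (P : ℤ → Prop) (c : ℝ)
    (hP : ∀ (s : ℤ) (g a : ℕ), (s = 1 ∨ s = -1) → Squarefree g → g ∣ u → Cp u a →
      (∀ m : ℕ, 0 < m → m % u = a → Squarefree m → T (s * g * m)) →
      (∃ m : ℕ, 0 < m ∧ m % u = a ∧ Squarefree m) →
      ∀ ε : ℝ, 0 < ε → ∀ᶠ Y : ℕ in atTop,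
        |(((GS u a Y).filter fun m : ℕ => P (s * g * m)).card : ℝ) - c * ((GS u a Y).card : ℝ)| ≤
          ε * Y) :
    Tendsto (fun X : ℕ => ((cnt N (fun e => T e ∧ P e) X : ℕ) : ℝ) / ((cnt N T X : ℕ) : ℝ)) atTop
      (𝓝 c) := by
  obtain ⟨F, hF, hN⟩ := hNF
  have e1 : ∀ X, cnt N T X = ∑ k ∈ KK' u T, (GS u k.2.2 (X / F k.1 k.2.1 k.2.2)).card := by
    intro X
    have h := cnt_eq hu hu0 hF hN hT X (fun _ => True) T (fun e => (and_true _).symm.to_iff)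
    rw [h]
    refine Finset.sum_congr rfl fun k _ => ?_
    rw [Finset.filter_true]
  have e2 := fun X => cnt_eq hu hu0 hF hN hT X P (fun e => T e ∧ P e) (fun _ => Iff.rfl)
  have hK : ∀ k ∈ KK' u T, (k.1 = 1 ∨ k.1 = -1) ∧ Squarefree k.2.1 ∧ k.2.1 ∣ u ∧ Cp u k.2.2 := by
    intro k hk
    obtain ⟨s, g, a⟩ := k
    rw [KK', mem_filter] at hk
    obtain ⟨-, e₁, he₁, hke, hTe⟩ := hk
    obtain ⟨hs, hg0, hgu, hgs, hau, hac, -⟩ := dec hu0 he₁ hke
    exact ⟨hs, hgs, hgu, ⟨hu, hu0, hau, hac⟩⟩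
  have hKT : ∀ k ∈ KK' u T, (∀ m : ℕ, 0 < m → m % u = k.2.2 → Squarefree m →
      T (k.1 * k.2.1 * m)) ∧ ∃ m : ℕ, 0 < m ∧ m % u = k.2.2 ∧ Squarefree m := by
    intro k hk
    obtain ⟨s, g, a⟩ := k
    rw [KK', mem_filter] at hk
    obtain ⟨-, e₁, he₁, hke, hTe⟩ := hk
    obtain ⟨hs, hg0, hgu, hgs, hau, hac, m₁, -, hm0, hma, hms, -⟩ := dec hu0 he₁ hke
    refine ⟨fun m h1 h2 h3 => ?_, m₁, hm0, hma, hms⟩
    have hcop : Nat.Coprime m u := by
      show Nat.gcd m u = 1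
      rw [Nat.gcd_comm, Nat.gcd_rec]
      have h2' : m % u = a := h2
      rw [h2']
      exact hac
    refine (hT (s * g * m) e₁ ?_ he₁ ?_).2 hTe
    · have hn : (s * g * m : ℤ).natAbs = g * m := by
        rw [Int.natAbs_mul, Int.natAbs_mul, Int.natAbs_natCast, Int.natAbs_natCast]
        rcases hs with rfl | rfl <;> simp
      rw [← Int.squarefree_natAbs, hn, Nat.squarefree_mul_iff]
      exact ⟨Nat.Coprime.coprime_dvd_left hgu hcop.symm, hgs, h3⟩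
    · rw [key_mul hs hgu hg0 hcop h1, hke]
      have h2' : m % u = a := h2
      rw [h2']
  have hFpos : ∀ k ∈ KK' u T, 0 < F k.1 k.2.1 k.2.2 := by
    intro k hk
    exact lt_of_lt_of_le (Nat.pos_of_ne_zero (hK k hk).2.1.ne_zero) (hF _ _ _)
  -- the key of `e₀`
  have hk₀ : key u e₀ ∈ KK' u T := by
    obtain ⟨hs, hg0, hgu, hgs, hau, hac, -⟩ := dec (s := (key u e₀).1) (g := (key u e₀).2.1)
      (a := (key u e₀).2.2) hu0 he₀ rfl
    rw [KK', mem_filter, mem_product, mem_product, Nat.mem_divisors, mem_range]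
    refine ⟨⟨?_, ⟨hgu, hu0.ne'⟩, hau⟩, e₀, he₀, rfl, hTe₀⟩
    rcases hs with hs | hs <;> rw [hs] <;> simp
  set k₀ := key u e₀ with hk₀d
  set F₀ := F k₀.1 k₀.2.1 k₀.2.2 with hF₀
  have hF₀0 : 0 < F₀ := hFpos k₀ hk₀
  -- lower bound
  have hlow : ∀ᶠ X : ℕ in atTop, 1 / (7 * (u : ℝ) * F₀) * X ≤ ((cnt N T X : ℕ) : ℝ) ∧ 1 ≤ X := by
    have h1 := (tendsto_div_nat hF₀0).eventually (card_low (hK k₀ hk₀).2.2.2)
    have hg0 : (0 : ℝ) < F₀ := by exact_mod_cast hF₀0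
    have hu0' : (0 : ℝ) < u := by exact_mod_cast hu0
    filter_upwards [h1, eventually_ge_atTop (2 * F₀), eventually_ge_atTop 1] with X hX hX2 hX1
    refine ⟨?_, hX1⟩
    obtain ⟨h3, h4⟩ := hX
    have h5 : (0 : ℝ) < ((X / F₀ : ℕ) : ℝ) := by exact_mod_cast h4
    rw [le_div_iff₀ h5] at h3
    have h6 : (X : ℝ) / F₀ - 1 ≤ ((X / F₀ : ℕ) : ℝ) := by
      have := Nat.lt_floor_add_one ((X : ℝ) / F₀)
      rw [Nat.floor_div_eq_div] at this
      linarith
    have h7 : (2 : ℝ) ≤ X / F₀ := by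
      rw [le_div_iff₀ hg0]
      exact_mod_cast hX2
    have h8 : 1 / (7 * (u : ℝ) * F₀) * X = 2 / (7 * u) * (X / F₀ / 2) := by
      field_simp
    rw [h8]
    have h9 : ((GS u k₀.2.2 (X / F₀)).card : ℝ) ≤ ((cnt N T X : ℕ) : ℝ) := by
      rw [e1]
      exact_mod_cast Finset.single_le_sum
        (f := fun k : ℤ × ℕ × ℕ => (GS u k.2.2 (X / F k.1 k.2.1 k.2.2)).card)
        (fun _ _ => Nat.zero_le _) hk₀
    refine le_trans (le_trans ?_ h3) h9
    apply mul_le_mul_of_nonneg_left _ (by positivity)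
    linarith
  -- the error
  have herr : ∀ ε : ℝ, 0 < ε → ∀ᶠ X : ℕ in atTop,
      |((cnt N (fun e => T e ∧ P e) X : ℕ) : ℝ) - c * ((cnt N T X : ℕ) : ℝ)| ≤ ε * X := by
    intro ε hε
    set n : ℝ := ((KK' u T).card : ℝ) with hn
    have hn0 : 0 ≤ n := Nat.cast_nonneg _
    have hall : ∀ᶠ X : ℕ in atTop, ∀ k ∈ KK' u T,
        |(((GS u k.2.2 (X / F k.1 k.2.1 k.2.2)).filter fun m : ℕ => P (k.1 * k.2.1 * m)).card : ℝ) -
          c * ((GS u k.2.2 (X / F k.1 k.2.1 k.2.2)).card : ℝ)| ≤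
          ε / (n + 1) * ((X / F k.1 k.2.1 k.2.2 : ℕ) : ℝ) := by
      rw [Filter.eventually_all_finset]
      intro k hk
      obtain ⟨q1, q2, q3, q4⟩ := hK k hk
      exact (tendsto_div_nat (hFpos k hk)).eventually
        (hP k.1 k.2.1 k.2.2 q1 q2 q3 q4 (hKT k hk).1 (hKT k hk).2 (ε / (n + 1)) (by positivity))
    filter_upwards [hall] with X hX
    rw [e1, e2]
    push_cast
    rw [Finset.mul_sum, ← Finset.sum_sub_distrib]
    refine (Finset.abs_sum_le_sum_abs _ _).trans ((Finset.sum_le_sum hX).trans ?_)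
    have h1 : ∀ k ∈ KK' u T, ε / (n + 1) * ((X / F k.1 k.2.1 k.2.2 : ℕ) : ℝ) ≤ ε / (n + 1) * X := by
      intro k _
      have : ((X / F k.1 k.2.1 k.2.2 : ℕ) : ℝ) ≤ X := by exact_mod_cast Nat.div_le_self _ _
      exact mul_le_mul_of_nonneg_left this (by positivity)
    refine (Finset.sum_le_card_nsmul _ _ _ h1).trans ?_
    rw [nsmul_eq_mul, ← hn]
    have h2 : n * (ε / (n + 1) * X) = (n / (n + 1)) * (ε * X) := by ring
    rw [h2]
    have h3 : n / (n + 1) ≤ 1 := by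
      rw [div_le_one (by positivity)]
      linarith
    exact mul_le_of_le_one_left (by positivity) h3
  rw [Metric.tendsto_atTop]
  intro ε hε
  have hg0 : (0 : ℝ) < F₀ := by exact_mod_cast hF₀0
  have hu0' : (0 : ℝ) < u := by exact_mod_cast hu0
  obtain ⟨X₀, h0⟩ := eventually_atTop.1 ((herr (ε / (2 * (7 * u * F₀))) (by positivity)).and hlow)
  refine ⟨X₀, fun X hX => ?_⟩
  obtain ⟨h1, h2, h3⟩ := h0 X hX
  have hX0 : (0 : ℝ) < X := by exact_mod_cast h3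
  have hS : (0 : ℝ) < ((cnt N T X : ℕ) : ℝ) := lt_of_lt_of_le (by positivity) h2
  rw [Real.dist_eq]
  have e : ((cnt N (fun e => T e ∧ P e) X : ℕ) : ℝ) / ((cnt N T X : ℕ) : ℝ) - c =
      (((cnt N (fun e => T e ∧ P e) X : ℕ) : ℝ) - c * ((cnt N T X : ℕ) : ℝ)) /
        ((cnt N T X : ℕ) : ℝ) := by
    field_simp
  rw [e, abs_div, abs_of_pos hS, div_lt_iff₀ hS]
  have h4 : ε / (2 * (7 * u * F₀)) * X < ε * ((cnt N T X : ℕ) : ℝ) := by
    have h5 : ε * (1 / (7 * (u : ℝ) * F₀) * X) = 2 * (ε / (2 * (7 * u * F₀)) * X) := by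
      field_simp
    have h6 : 0 < ε / (2 * (7 * u * F₀)) * X := by positivity
    have := mul_le_mul_of_nonneg_left h2 hε.le
    linarith
  linarith

end Pool.Agent.L0h74.E3
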