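import Mathlib
import Pool.Agent.L0h74.E3.DenO
import Pool.Agent.L0h74.E3.RatT
import Pool.Agent.L0h74.E3.DnT
import Pool.Agent.L0h74.AP.Loc

/-!
# E3: the proportion of the good twists in sets of square-free integers defined by local conditions

`C D` is the criterion for the square-free number `D` prime to three: for `D ≡ 1` modulo four the good
sets `Gd`, for `D = 2 m` the good sets `GdE`.
-/

set_option autoImplicit false
set_option linter.unusedSectionVars false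
set_option linter.unusedVariables false

open scoped Classical

namespace Pool.Agent.L0h74.E3

open Finset Filter
open scoped Topology
open Pool.Agent.L0h74.T3 (Pr RecA Gd)
open Pool.Agent.Y703.CQ (c2)
open Pool.Agent.L0h74.AP (key ClassFn HtFn cnt classFn_of)

/-- the criterion -/
structure CrD (C : ℕ → Prop) (A : ℕ → ℕ → ZMod 2) (b : ℕ → ZMod 2) : Prop where
  recA : RecA A
  odd : ∀ D, Squarefree D → D % 4 = 1 → ¬ 3 ∣ D → (C D ↔ Gd A b D.primeFactors)
  even : ∀ m, Squarefree m → m % 2 = 1 → ¬ 3 ∣ m →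
    (C (2 * m) ↔ GdE ⟨if m % 4 = 1 then 0 else 1, A, b⟩ m.primeFactors)

section
variable {C : ℕ → Prop} {A : ℕ → ℕ → ZMod 2} {b : ℕ → ZMod 2} {g u a : ℕ}

theorem Cg.sqD (h : Cg g u a) {D : ℕ} (hD : Squarefree D ∧ D % (g * u) = g * a) :
    D % 2 = 1 ∧ ¬ 3 ∣ D := by
  obtain ⟨h1, h2⟩ := h.odd3 hD.2
  exact ⟨h1, fun h3 => h2 (Nat.mod_eq_zero_of_dvd h3)⟩

theorem Cg.mod4 (h : Cg g u a) {D : ℕ} (hD : D % (g * u) = g * a) : D % 4 = (g * a) % 4 := by
  rw [← hD, Nat.mod_mod_of_dvd]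
  exact Dvd.dvd.mul_left h.four g

/-- the numbers `D = g m`, `D ≡ 1` modulo four -/
theorem base1 (h : CrD C A b) (hg : Cg g u a) (h1 : (g * a) % 4 = 1) :
    ∀ ε : ℝ, 0 < ε → ∀ᶠ X : ℕ in atTop,
      |(((GSg g u a X).filter fun D => C D).card : ℝ) -
        c2 / 2 * ((GSg g u a X).card : ℝ)| ≤ ε * X := by
  intro ε hε
  filter_upwards [DenO.dqO hg h1 A b h.recA ε hε] with X hX
  rw [show (GSg g u a X).filter (fun D => C D) =
    (GSg g u a X).filter (fun D => Gd A b D.primeFactors) from ?_]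
  · exact hX
  refine Finset.filter_congr fun D hD => ?_
  rw [GSg, mem_filter] at hD
  exact h.odd D hD.2.1 (by rw [hg.mod4 hD.2.2, h1]) (hg.sqD hD.2).2

/-- the numbers `2 D`, `D = g m` -/
theorem base2 (h : CrD C A b) (hg : Cg g u a) :
    ∀ ε : ℝ, 0 < ε → ∀ᶠ X : ℕ in atTop,
      |(((GSg g u a X).filter fun D => C (2 * D)).card : ℝ) -
        c2 / 2 * ((GSg g u a X).card : ℝ)| ≤ ε * X := by
  have hodd : (g * a) % 2 = 1 := by
    have hlt : g * a < g * u := Nat.mul_lt_mul_of_pos_left hg.cp.lt hg.gpos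
    exact (hg.odd3 (Nat.mod_eq_of_lt hlt)).1
  intro ε hε
  have hc : (g * a) % 4 = 1 ∨ (g * a) % 4 = 3 := by omega
  filter_upwards [Den.dqE hg ⟨if (g * a) % 4 = 1 then 0 else 1, A, b⟩ h.recA (by
    rcases hc with hc | hc
    · left
      exact ⟨if_pos hc, hc⟩
    · right
      exact ⟨if_neg (by omega), hc⟩) ε hε] with X hX
  rw [show (GSg g u a X).filter (fun D => C (2 * D)) = (GSg g u a X).filter (fun D =>
    GdE ⟨if (g * a) % 4 = 1 then 0 else 1, A, b⟩ D.primeFactors) from ?_]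
  · exact hX
  refine Finset.filter_congr fun D hD => ?_
  rw [GSg, mem_filter] at hD
  rw [h.even D hD.2.1 (hg.sqD hD.2).1 (hg.sqD hD.2).2, hg.mod4 hD.2.2]

/-- scaling -/
theorem scale (hg : Cg g u a) (P : ℕ → Prop) (c : ℝ)
    (h : ∀ ε : ℝ, 0 < ε → ∀ᶠ X : ℕ in atTop,
      |(((GSg g u a X).filter P).card : ℝ) - c * ((GSg g u a X).card : ℝ)| ≤ ε * X) :
    ∀ ε : ℝ, 0 < ε → ∀ᶠ Y : ℕ in atTop,
      |(((GS u a Y).filter fun m => P (g * m)).card : ℝ) - c * ((GS u a Y).card : ℝ)| ≤ ε * Y := by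
  intro ε hε
  have hg0 : (0 : ℝ) < g := by exact_mod_cast hg.gpos
  have h1 := (h (ε / g) (by positivity))
  have ht : Tendsto (fun Y : ℕ => g * Y) atTop atTop :=
    Filter.tendsto_id.const_mul_atTop' hg.gpos
  filter_upwards [ht.eventually h1] with Y hY
  rw [GSg_card hg (g * Y) P, GSg_card0 hg, Nat.mul_div_cancel_left Y hg.gpos] at hY
  refine hY.trans (le_of_eq ?_)
  push_cast
  field_simp

/-- **The proportion of the good numbers `D₀ m`.** -/
theorem base (h : CrD C A b) (hc : Cp u a) (h4 : 4 ∣ u) {D₀ : ℕ} (hD : Squarefree D₀)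
    (h3 : ¬ 3 ∣ D₀) (hp : ∀ p, p.Prime → p ∣ D₀ → p ∣ u)
    (hpar : D₀ % 2 = 0 ∨ (D₀ * a) % 4 = 1) :
    ∀ ε : ℝ, 0 < ε → ∀ᶠ Y : ℕ in atTop,
      |(((GS u a Y).filter fun m => C (D₀ * m)).card : ℝ) -
        c2 / 2 * ((GS u a Y).card : ℝ)| ≤ ε * Y := by
  rcases Nat.even_or_odd D₀ with he | ho
  · obtain ⟨g, hg⟩ := he.two_dvd
    have hsq : Squarefree g ∧ g % 2 = 1 := by
      rw [hg, Pool.Agent.L0h74.EV.Uni.sf_two] at hD
      exact ⟨hD.2, hD.1⟩
    have hCg : Cg g u a := by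
      refine ⟨hc, h4, hsq.1, Pool.Agent.L0h74.AP.sqf_dvd hsq.1 fun p h1 h2 => hp p h1 ?_, ?_⟩
      · rw [hg]; exact Dvd.dvd.mul_left h2 2
      · have h2 : Nat.Coprime g 2 := by
          rw [Nat.coprime_comm, Nat.Prime.coprime_iff_not_dvd Nat.prime_two]
          omega
        have h7' : Nat.Coprime g 3 := by
          rw [Nat.coprime_comm, Nat.Prime.coprime_iff_not_dvd (by norm_num)]
          intro h'
          apply h3
          rw [hg]
          exact Dvd.dvd.mul_left h' 2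
        exact Nat.Coprime.mul_right h2 h7'
    have := scale hCg (fun D => C (2 * D)) (c2 / 2) (base2 h hCg)
    intro ε hε
    filter_upwards [this ε hε] with Y hY
    rw [show (GS u a Y).filter (fun m => C (D₀ * m)) =
      (GS u a Y).filter (fun m => C (2 * (g * m))) from ?_]
    · exact hY
    · refine Finset.filter_congr fun m _ => ?_
      rw [hg, mul_assoc]
  · have hodd : D₀ % 2 = 1 := Nat.odd_iff.1 ho
    have hCg : Cg D₀ u a := by
      refine ⟨hc, h4, hD, Pool.Agent.L0h74.AP.sqf_dvd hD hp, ?_⟩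
      have h2 : Nat.Coprime D₀ 2 := by
        rw [Nat.coprime_comm, Nat.Prime.coprime_iff_not_dvd Nat.prime_two]
        omega
      have h7' : Nat.Coprime D₀ 3 := by
        rw [Nat.coprime_comm, Nat.Prime.coprime_iff_not_dvd (by norm_num)]
        exact h3
      exact Nat.Coprime.mul_right h2 h7'
    refine scale hCg (fun D => C D) (c2 / 2) (base1 h hCg ?_)
    rcases hpar with h' | h'
    · omega
    · exact h'

end

/-! ### the sets of square-free integers -/

/-- the root number of the twist by `n` of `X_0(36)` is `+1` -/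
def RootPlus (n : ℤ) : Prop :=
  n ≠ 0 ∧ (Dn n % 4 = 1 ∨ (Dn n % 2 = 0 ∧
    ((n < 0 ∧ Even (padicValInt 3 n)) ∨ (0 < n ∧ Odd (padicValInt 3 n)))))

theorem classFn_root {u : ℕ} (hu0 : 0 < u) (h12 : 12 ∣ u) {d : ℤ} (hd0 : d ≠ 0)
    (hd : ∀ p, p.Prime → p ∣ d.natAbs → p ∣ u) :
    ClassFn u fun e => RootPlus (e * d) := by
  intro e e' he he' hk
  have h6 : 6 ∣ u := (by norm_num : 6 ∣ 12).trans h12
  have h4 : 4 ∣ u := (by norm_num : 4 ∣ 12).trans h12
  have h3 : 3 ∣ u := (by norm_num : 3 ∣ 12).trans h12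
  obtain ⟨hs, hg0, hgu, -, -, -, m, hm, hm0, hma, hms, hmc⟩ := Pool.Agent.L0h74.AP.dec
    (s := (key u e).1) (g := (key u e).2.1) (a := (key u e).2.2) hu0 he rfl
  obtain ⟨-, -, -, -, -, -, m', hm', hm0', hma', hms', hmc'⟩ := Pool.Agent.L0h74.AP.dec
    (s := (key u e).1) (g := (key u e).2.1) (a := (key u e).2.2) hu0 he' hk.symm
  set s := (key u e).1 with hsd
  set g := (key u e).2.1 with hgd
  have h3p : Fact (Nat.Prime 3) := ⟨by norm_num⟩
  have hs0 : s ≠ 0 := by rcases hs with h | h <;> rw [h] <;> norm_num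
  have hg1 : (g : ℤ) ≠ 0 := by exact_mod_cast hg0.ne'
  have hv : ∀ k : ℕ, 0 < k → Nat.Coprime k u → padicValInt 3 (s * g * k * d) =
      padicValInt 3 (s * g * d) := by
    intro k hk hku
    have hk1 : (k : ℤ) ≠ 0 := by exact_mod_cast hk.ne'
    have e : (s * g * k * d : ℤ) = (s * g * d) * k := by ring
    rw [e, padicValInt.mul (mul_ne_zero (mul_ne_zero hs0 hg1) hd0) hk1]
    have h0 : padicValInt 3 (k : ℤ) = 0 := by
      rw [padicValInt.of_nat]
      apply padicValNat.eq_zero_of_not_dvd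
      intro h
      have := Nat.dvd_gcd h h3
      rw [hku] at this
      omega
    rw [h0, add_zero]
  have key1 : ∀ k k' : ℕ, 0 < k → 0 < k' → Nat.Coprime k u → Nat.Coprime k' u → Squarefree k →
      Squarefree k' → k % u = k' % u → RootPlus (s * g * k * d) → RootPlus (s * g * k' * d) := by
    intro k k' hk hk' hc hc' hq hq' hkk hR
    have hk1 : (0 : ℤ) < k := by exact_mod_cast hk
    have hk2 : (0 : ℤ) < k' := by exact_mod_cast hk'
    obtain ⟨r0, r1⟩ := hR
    rw [Dn_mul h6 hs hg0.ne' hgu hd0 hd hq hc, hv k hk hc] at r1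
    have hA0 : (s * g * d : ℤ) ≠ 0 := mul_ne_zero (mul_ne_zero hs0 hg1) hd0
    have e1 : ∀ x : ℤ, (s * g * x * d : ℤ) = (s * g * d) * x := fun x => by ring
    have hkk4 : k % 4 = k' % 4 := by
      have q1 : k % u % 4 = k % 4 := Nat.mod_mod_of_dvd k h4
      have q2 : k' % u % 4 = k' % 4 := Nat.mod_mod_of_dvd k' h4
      rw [← q1, ← q2, hkk]
    refine ⟨?_, ?_⟩
    · rw [e1]
      exact mul_ne_zero hA0 hk2.ne'
    rw [Dn_mul h6 hs hg0.ne' hgu hd0 hd hq' hc', hv k' hk' hc']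
    have m4 : (Dn (g * d) * k) % 4 = (Dn (g * d) * k') % 4 := by
      rw [Nat.mul_mod, hkk4, ← Nat.mul_mod]
    have m2 : (Dn (g * d) * k) % 2 = (Dn (g * d) * k') % 2 := by omega
    rw [m4, m2] at r1
    have hlt : ∀ x : ℤ, 0 < x → ((s * g * d) * x < 0 ↔ (s * g * d : ℤ) < 0) := by
      intro x hx
      constructor
      · intro h
        by_contra hc
        push Not at hc
        exact absurd h (not_lt.2 (mul_nonneg hc hx.le))
      · intro h
        exact mul_neg_of_neg_of_pos h hx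
    have hgt : ∀ x : ℤ, 0 < x → (0 < (s * g * d) * x ↔ (0 : ℤ) < s * g * d) := by
      intro x hx
      constructor
      · intro h
        exact pos_of_mul_pos_left h hx.le
      · intro h
        exact mul_pos h hx
    rw [e1, hlt _ hk1, hgt _ hk1] at r1
    rw [e1, hlt _ hk2, hgt _ hk2]
    exact r1
  show RootPlus (e * d) ↔ RootPlus (e' * d)
  rw [hm, hm']
  exact ⟨key1 m m' hm0 hm0' hmc hmc' hms hms' (hma.trans hma'.symm),
    key1 m' m hm0' hm0 hmc' hmc hms' hms (hma'.trans hma.symm)⟩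

/-- **The proportion of the good twists among the square-free integers in any set defined by
conditions on the class**, for any twist by `d` -/
theorem main {C : ℕ → Prop} {A : ℕ → ℕ → ZMod 2} {b : ℕ → ZMod 2} (h : CrD C A b) {u : ℕ}
    (hu : 84 ∣ u) (hu0 : 0 < u) {d : ℤ} (hd0 : d ≠ 0)
    (hd : ∀ p, p.Prime → p ∣ d.natAbs → p ∣ u) {N : ℤ → ℕ} (hNF : HtFn u N) {T : ℤ → Prop}
    (hT : ClassFn u T) (hTR : ∀ e, T e → RootPlus (e * d)) {e₀ : ℤ} (he₀ : Squarefree e₀)
    (hTe₀ : T e₀) :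
    Tendsto (fun X : ℕ => ((cnt N (fun e => T e ∧ C (Dn (e * d))) X : ℕ) : ℝ) /
      ((cnt N T X : ℕ) : ℝ)) atTop (𝓝 (c2 / 2)) := by
  have hu14 : 14 ∣ u := (by norm_num : 14 ∣ 84).trans hu
  have hu6 : 6 ∣ u := (by norm_num : 6 ∣ 84).trans hu
  have hu4 : 4 ∣ u := (by norm_num : 4 ∣ 84).trans hu
  refine ratioT hu14 hu0 hNF hT he₀ hTe₀ (fun e => C (Dn (e * d))) (c2 / 2) ?_
  intro s g a hs hg hgu hc hTm hex ε hε
  have hD : ∀ p, p.Prime → p ∣ Dn (g * d) → p ∣ u := by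
    intro p hp hdp
    rw [Dn_dvd hp, Ds, mem_filter] at hdp
    have h1 := Nat.dvd_of_mem_primeFactors hdp.1
    rw [Int.natAbs_mul, Int.natAbs_natCast] at h1
    rcases (Nat.Prime.dvd_mul hp).1 h1 with h2 | h2
    · exact h2.trans hgu
    · exact hd p hp h2
  have hcp : Cp u a := ⟨hu6, hc.pos, hc.lt, hc.cop⟩
  have hcop : ∀ m : ℕ, m % u = a → Nat.Coprime m u := by
    intro m hm
    rw [Nat.coprime_iff_gcd_eq_one, Nat.gcd_comm, Nat.gcd_rec, hm]
    exact hc.cop
  have hpar : Dn (g * d) % 2 = 0 ∨ (Dn (g * d) * a) % 4 = 1 := by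
    obtain ⟨m, hm0, hma, hms⟩ := hex
    have h1 := hTR _ (hTm m hm0 hma hms)
    have hm2 : m % 4 = a % 4 := by
      rw [← hma, Nat.mod_mod_of_dvd m hu4]
    have h2 : (Dn (g * d) * m) % 4 = (Dn (g * d) * a) % 4 := by
      rw [Nat.mul_mod, hm2, ← Nat.mul_mod]
    have h3 : m % 2 = 1 := hcp.modd hma
    obtain ⟨-, h4⟩ := h1
    rw [Dn_mul hu6 hs hg.ne_zero hgu hd0 hd hms (hcop m hma)] at h4
    rcases h4 with h4 | ⟨h4, -⟩
    · right
      rw [← h2]
      exact h4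
    · left
      rw [Nat.mul_mod, h3] at h4
      omega
  have hB := base h hcp hu4 (Dn_sq (g * d)) (Dn_three _) hD hpar ε hε
  filter_upwards [hB] with Y hY
  rw [show (Pool.Agent.L0h74.AP.GS u a Y).filter (fun m : ℕ => C (Dn ((s * g * m) * d))) =
    (GS u a Y).filter (fun m => C (Dn (g * d) * m)) from ?_]
  · exact hY
  · show (GS u a Y).filter (fun m : ℕ => C (Dn ((s * g * m) * d))) = _
    refine Finset.filter_congr fun m hm => ?_
    rw [GS, mem_filter] at hm
    rw [Dn_mul hu6 hs hg.ne_zero hgu hd0 hd hm.2.1 (hcop m hm.2.2)]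

end Pool.Agent.L0h74.E3
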