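import Mathlib
import Pool.Agent.L0h74.E3.LB

/-!
# E3: families of twists of `X_0(36)` with local conditions
-/

set_option autoImplicit false
set_option linter.unusedSectionVars false
set_option linter.unusedVariables false

open scoped Classical

namespace Pool.Agent.L0h74.E3

open Filter Topology
open Pool.Agent.Y703.CQ (c2)
open Pool.Agent.L0h74.AP (ClassFn HtFn cnt classFn_loc classFn_sign classFn_const ClassFn.and
  ClassFn.all ClassFn.imp)

/-- the condition -/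
def Loc (d e₀ : ℤ) (S : Finset ℕ) (inf : Prop) (e : ℤ) : Prop :=
  RootPlus (e * d) ∧ (∀ p ∈ S, ∀ _ : Fact p.Prime, IsSquare (((e * e₀ : ℤ) : ℤ) : ℚ_[p])) ∧
    (inf → 0 < e * e₀)

/-- the absolute value is a height function -/
theorem abs_ht (u : ℕ) : HtFn u Int.natAbs := by
  refine ⟨fun _ g _ => g, fun _ _ _ => le_rfl, fun s g m hs => ?_⟩
  rw [Int.natAbs_mul, Int.natAbs_mul, Int.natAbs_natCast, Int.natAbs_natCast]
  rcases hs with rfl | rfl <;> simp

/-- **the law in the families with local conditions** -/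
theorem law {C : ℕ → Prop} {A : ℕ → ℕ → ZMod 2} {b : ℕ → ZMod 2} (h : CrD C A b)
    {N : ℤ → ℕ} (hN : ∀ u, 4 ∣ u → HtFn u N) {d : ℤ} (hd : d ≠ 0) {S : Finset ℕ}
    (hS : ∀ p ∈ S, p.Prime) (inf : Prop) {e₀ : ℤ} (he₀ : Squarefree e₀)
    (h₀ : RootPlus (e₀ * d)) :
    Tendsto (fun X : ℕ => ((cnt N (fun e => Loc d e₀ S inf e ∧ C (Dn (e * d))) X : ℕ) : ℝ) /
      ((cnt N (Loc d e₀ S inf) X : ℕ) : ℝ)) atTop (𝓝 (c2 / 2)) := by
  set u : ℕ := 168 * ((∏ p ∈ S, p) * d.natAbs) with hu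
  have hP0 : 0 < ∏ p ∈ S, p := Finset.prod_pos fun p hp => (hS p hp).pos
  have hd0 : 0 < d.natAbs := Int.natAbs_pos.2 hd
  have hu0 : 0 < u := by positivity
  have h168 : 168 ∣ u := Dvd.intro _ rfl
  have h84 : 84 ∣ u := (by norm_num : 84 ∣ 168).trans h168
  have h8 : 8 ∣ u := (by norm_num : 8 ∣ 168).trans h168
  have h4 : 4 ∣ u := (by norm_num : 4 ∣ 168).trans h168
  have h12 : 12 ∣ u := (by norm_num : 12 ∣ 168).trans h168
  have hpu : ∀ p ∈ S, p ∣ u := fun p hp =>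
    Dvd.dvd.mul_left (Dvd.dvd.mul_right (Finset.dvd_prod_of_mem (fun q : ℕ => q) hp) _) _
  have hdu : ∀ p, p.Prime → p ∣ d.natAbs → p ∣ u := fun p _ hp =>
    Dvd.dvd.mul_left (Dvd.dvd.mul_left hp _) _
  have hT : ClassFn u (Loc d e₀ S inf) := by
    have h1 : ClassFn u fun e => ∀ p ∈ S, ∀ _ : Fact p.Prime,
        IsSquare (((e * e₀ : ℤ) : ℤ) : ℚ_[p]) :=
      ClassFn.all fun p => ClassFn.all fun hp => ClassFn.all fun hf =>
        classFn_loc (hp := hf) hu0 h8 p (hpu p hp) e₀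
    have h2 : ClassFn u fun e => inf → 0 < e * e₀ := (classFn_const inf).imp (classFn_sign hu0 e₀)
    exact (classFn_root hu0 h12 hd hdu).and (h1.and h2)
  have hT0 : Loc d e₀ S inf e₀ := by
    refine ⟨h₀, fun p _ _ => ⟨(e₀ : ℚ_[p]), by push_cast; ring⟩, fun _ => ?_⟩
    exact mul_self_pos.2 he₀.ne_zero
  exact main h h84 hu0 hd hdu (hN u h4) hT (fun e he => he.1) he₀ hT0

end Pool.Agent.L0h74.E3
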