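import Mathlib
import Pool.Agent.L0h74.E3.Den

/-! # E3: the natural density -/

set_option autoImplicit false
set_option linter.unusedVariables false

open scoped Classical
open Finset Filter
open scoped Topology

namespace Pool.Agent.L0h74.E3

open Pool.Agent.L0h74.T3 (RecA)
open Pool.Agent.Y703.CQ (c2)

/-- the classes modulo `3 u` over a class modulo `u` -/
def Ks (u a : ℕ) : Finset ℕ := (range (3 * u)).filter fun b => b % u = a ∧ b % 3 ≠ 0

section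
variable {u a : ℕ}

theorem Ks_cg (h4 : 4 ∣ u) (hu : 0 < u) (hc : Nat.Coprime a u) {b : ℕ} (hb : b ∈ Ks u a) :
    Cg 1 (3 * u) b := by
  unfold Ks at hb
  rw [mem_filter, mem_range] at hb
  obtain ⟨h1, h2, h3⟩ := hb
  have h6 : 6 ∣ 3 * u := by
    obtain ⟨k, rfl⟩ := h4
    exact ⟨2 * k, by ring⟩
  refine ⟨⟨h6, by omega, h1, ?_⟩, Dvd.dvd.mul_left h4 3, squarefree_one, one_dvd _,
    Nat.coprime_one_left 6⟩
  refine Nat.Coprime.mul_right ?_ ?_
  · exact ((Nat.Prime.coprime_iff_not_dvd (by norm_num)).2 fun h =>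
      h3 (Nat.mod_eq_zero_of_dvd h)).symm
  · rw [← h2] at hc
    unfold Nat.Coprime at hc ⊢
    rw [← Nat.gcd_rec] at hc
    rw [Nat.gcd_comm]
    exact hc

theorem Ks_ne (hu : 0 < u) (ha : a < u) (hc : Nat.Coprime a u) : (Ks u a).Nonempty := by
  by_cases h3 : a % 3 = 0
  · refine ⟨a + u, ?_⟩
    unfold Ks
    rw [mem_filter, mem_range]
    refine ⟨by omega, by rw [Nat.add_mod_right, Nat.mod_eq_of_lt ha], fun h => ?_⟩
    have h5 : 3 ∣ a := Nat.dvd_of_mod_eq_zero h3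
    have h6 : 3 ∣ u := by
      apply Nat.dvd_of_mod_eq_zero
      omega
    have h7 := Nat.dvd_gcd h5 h6
    rw [hc] at h7
    omega
  · refine ⟨a, ?_⟩
    unfold Ks
    rw [mem_filter, mem_range]
    exact ⟨by omega, Nat.mod_eq_of_lt ha, h3⟩

theorem cover (hu : 0 < u) (X : ℕ) (P : ℕ → Prop) :
    ((Icc 1 X).filter fun D => Squarefree D ∧ D % u = a ∧ ¬ 3 ∣ D ∧ P D) =
      (Ks u a).biUnion fun b => (GSg 1 (3 * u) b X).filter P := by
  ext D
  rw [mem_biUnion, mem_filter, mem_Icc]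
  constructor
  · rintro ⟨h1, h2, h3, h4, h5⟩
    refine ⟨D % (3 * u), ?_, ?_⟩
    · unfold Ks
      rw [mem_filter, mem_range, Nat.mod_mul_left_mod, Nat.mod_mul_right_mod]
      refine ⟨Nat.mod_lt _ (by omega), h3, fun h => h4 (Nat.dvd_of_mod_eq_zero h)⟩
    · rw [mem_filter, GSg, mem_filter, mem_Icc, one_mul, one_mul]
      exact ⟨⟨h1, h2, rfl⟩, h5⟩
  · rintro ⟨b, hb, hD⟩
    unfold Ks at hb
    rw [mem_filter, mem_range] at hb
    rw [mem_filter, GSg, mem_filter, mem_Icc, one_mul, one_mul] at hD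
    obtain ⟨⟨h1, h2, h3⟩, h5⟩ := hD
    refine ⟨h1, h2, ?_, ?_, h5⟩
    · rw [← Nat.mod_mul_left_mod D 3 u, h3]
      exact hb.2.1
    · intro h
      apply hb.2.2
      rw [← h3, Nat.mod_mul_right_mod]
      exact Nat.mod_eq_zero_of_dvd h

theorem cover_card (hu : 0 < u) (X : ℕ) (P : ℕ → Prop) :
    ((Icc 1 X).filter fun D => Squarefree D ∧ D % u = a ∧ ¬ 3 ∣ D ∧ P D).card =
      ∑ b ∈ Ks u a, ((GSg 1 (3 * u) b X).filter P).card := by
  rw [cover hu, card_biUnion]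
  intro b _ b' _ hbb
  rw [Function.onFun, Finset.disjoint_left]
  intro D h1 h2
  rw [mem_filter, GSg, mem_filter, one_mul, one_mul] at h1 h2
  exact hbb (h1.1.2.2.symm.trans h2.1.2.2)

end

/-- the union of finitely many classes -/
theorem ratio_sum {F : Finset ℕ} (G N : ℕ → ℕ → ℕ) (c δ : ℝ) (hδ : 0 < δ)
    (h1 : ∀ b ∈ F, ∀ ε : ℝ, 0 < ε → ∀ᶠ X : ℕ in atTop, |(G b X : ℝ) - c * (N b X : ℝ)| ≤ ε * X)
    {b₀ : ℕ} (hb : b₀ ∈ F) (h2 : ∀ᶠ X : ℕ in atTop, δ ≤ (N b₀ X : ℝ) / X ∧ 1 ≤ X) :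
    Tendsto (fun X : ℕ => ((∑ b ∈ F, G b X : ℕ) : ℝ) / ((∑ b ∈ F, N b X : ℕ) : ℝ)) atTop (𝓝 c) := by
  have hF0 : (0 : ℝ) < F.card := by
    exact_mod_cast Finset.card_pos.2 ⟨b₀, hb⟩
  rw [Metric.tendsto_atTop]
  intro ε hε
  have h3 : ∀ᶠ X : ℕ in atTop, ∀ b ∈ F, |(G b X : ℝ) - c * (N b X : ℝ)| ≤
      ε * δ / (2 * F.card) * X := by
    rw [eventually_all_finset]
    exact fun b hb => h1 b hb _ (by positivity)
  obtain ⟨X₀, h0⟩ := eventually_atTop.1 (h3.and h2)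
  refine ⟨X₀, fun X hX => ?_⟩
  obtain ⟨k1, k2, k3⟩ := h0 X hX
  have hX0 : (0 : ℝ) < X := by exact_mod_cast k3
  rw [le_div_iff₀ hX0] at k2
  have hN : δ * X ≤ ((∑ b ∈ F, N b X : ℕ) : ℝ) := by
    refine k2.trans ?_
    exact_mod_cast Finset.single_le_sum (f := fun b => N b X) (fun b _ => Nat.zero_le _) hb
  have hS : (0 : ℝ) < ((∑ b ∈ F, N b X : ℕ) : ℝ) := lt_of_lt_of_le (by positivity) hN
  have e1 : |((∑ b ∈ F, G b X : ℕ) : ℝ) - c * ((∑ b ∈ F, N b X : ℕ) : ℝ)| ≤ ε * δ / 2 * X := by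
    push_cast
    rw [Finset.mul_sum, ← Finset.sum_sub_distrib]
    refine (Finset.abs_sum_le_sum_abs _ _).trans ((Finset.sum_le_card_nsmul _ _ _ k1).trans ?_)
    rw [nsmul_eq_mul]
    apply le_of_eq
    field_simp
  rw [Real.dist_eq]
  have e : ((∑ b ∈ F, G b X : ℕ) : ℝ) / ((∑ b ∈ F, N b X : ℕ) : ℝ) - c =
      (((∑ b ∈ F, G b X : ℕ) : ℝ) - c * ((∑ b ∈ F, N b X : ℕ) : ℝ)) /
        ((∑ b ∈ F, N b X : ℕ) : ℝ) := by
    field_simp
  rw [e, abs_div, abs_of_pos hS, div_lt_iff₀ hS]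
  have h5 : ε * (δ * X) ≤ ε * ((∑ b ∈ F, N b X : ℕ) : ℝ) := mul_le_mul_of_nonneg_left hN hε.le
  have h6 : 0 < ε * δ * X := by positivity
  have h7 : ε * δ / 2 * X = (ε * δ * X) / 2 := by ring
  have h8 : ε * (δ * X) = ε * δ * X := by ring
  linarith

/-- **The natural density, one more inert prime, unconditionally.** -/
theorem t_DENE : S_DENE := by
  intro d u a hA h4 hu ha hc ht
  have hpar : ∀ b ∈ Ks u a, (d.t = 0 ∧ (1 * b) % 4 = 1) ∨ (d.t = 1 ∧ (1 * b) % 4 = 3) := by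
    intro b hb
    unfold Ks at hb
    rw [mem_filter, mem_range] at hb
    have h1 : b % 4 = a % 4 := by
      rw [← hb.2.1, Nat.mod_mod_of_dvd b h4]
    rw [one_mul, h1]
    exact ht
  obtain ⟨b₀, hb₀⟩ := Ks_ne hu ha hc
  have hu3 : (0 : ℝ) < ((3 * u : ℕ) : ℝ) := by exact_mod_cast (by omega : 0 < 3 * u)
  have hlow := card_lowG (Ks_cg h4 hu hc hb₀)
  have key := ratio_sum (F := Ks u a)
    (fun b X => ((GSg 1 (3 * u) b X).filter fun D => GdE d D.primeFactors).card)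
    (fun b X => (GSg 1 (3 * u) b X).card) (c2 / 2) (1 / (7 * ((3 * u : ℕ) : ℝ) * (1 : ℕ)))
    (by positivity) (fun b hb => Den.dqE (Ks_cg h4 hu hc hb) d hA (hpar b hb)) hb₀ hlow
  refine key.congr fun X => ?_
  have e1 := cover_card (a := a) hu X (fun D => GdE d D.primeFactors)
  have e2 : ((Icc 1 X).filter fun D => Squarefree D ∧ D % u = a ∧ ¬ 3 ∣ D).card =
      ∑ b ∈ Ks u a, (GSg 1 (3 * u) b X).card := by
    simpa using cover_card (a := a) hu X (fun _ => True)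
  rw [e1, e2]

end Pool.Agent.L0h74.E3
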