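import Mathlib
import Pool.Agent.L0h74.E3.LC
import Pool.Agent.L0h86.E3.DensC
import Pool.Agent.L0h86.F3.Fin

/-!
# E3: the criterion for the twists of `X_0(36)`, and the law with local conditions
-/

set_option autoImplicit false
set_option linter.unusedSectionVars false
set_option linter.unusedVariables false

open scoped Classical

namespace Pool.Agent.L0h74.E3

open Filter Topology
open Pool.Agent.Y703.CQ (c2)
open Pool.Agent.L0h74.AP (HtFn cnt)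
open Pool.Agent.L0h86.F1 (AdmM)
open Pool.Agent.L0h4.T4 (AdmC)
open Pool.Agent.L0h86.F3 (mM tr_D)
open Pool.Agent.L0h86.E3 (tr_m)
open Pool.Agent.L0h86.T3 (recA exists_gens)
open Pool.Agent.L0h4.T5 (mC)

/-- the criterion: `D ≡ 1` modulo four, or `D` even -/
def Cr (D : ℕ) : Prop := (D % 2 = 1 ∧ (mM D).det ≠ 0) ∨ (D % 2 = 0 ∧ (mC D).det ≠ 0)

theorem cr_odd {D : ℕ} (h : D % 2 = 1) : Cr D ↔ (mM D).det ≠ 0 := by
  unfold Cr
  constructor
  · rintro (⟨_, h2⟩ | ⟨h1, _⟩)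
    · exact h2
    · omega
  · exact fun h2 => Or.inl ⟨h, h2⟩

theorem cr_even {D : ℕ} (h : D % 2 = 0) : Cr D ↔ (mC D).det ≠ 0 := by
  unfold Cr
  constructor
  · rintro (⟨h1, _⟩ | ⟨_, h2⟩)
    · omega
    · exact h2
  · exact fun h2 => Or.inr ⟨h, h2⟩

theorem exists_crD : ∃ (A : ℕ → ℕ → ZMod 2) (b : ℕ → ZMod 2), CrD Cr A b := by
  obtain ⟨ϖ, hϖ⟩ := exists_gens
  refine ⟨_, fun p => (Pool.Agent.L0h86.F3.bt (ϖ p)).re, recA hϖ, ?_, ?_⟩
  · intro D h1 h2 h3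
    rw [cr_odd (by omega)]
    exact tr_D hϖ ⟨h1, h2, h3⟩
  · intro m h1 h2 h3
    rw [cr_even (by omega)]
    exact tr_m Pool.Agent.L0h75.E3.t_TR8 hϖ ⟨h1, h2, h3⟩

/-- **the law in the families of twists of `X_0(36)` with local conditions** -/
theorem law36 {N : ℤ → ℕ} (hN : ∀ u, 4 ∣ u → HtFn u N) {d : ℤ} (hd : d ≠ 0) {S : Finset ℕ}
    (hS : ∀ p ∈ S, p.Prime) (inf : Prop) {e₀ : ℤ} (he₀ : Squarefree e₀)
    (h₀ : RootPlus (e₀ * d)) :
    Tendsto (fun X : ℕ => ((cnt N (fun e => Loc d e₀ S inf e ∧ Cr (Dn (e * d))) X : ℕ) : ℝ) /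
      ((cnt N (Loc d e₀ S inf) X : ℕ) : ℝ)) atTop (𝓝 (c2 / 2)) := by
  obtain ⟨A, b, h⟩ := exists_crD
  exact law h hN hd hS inf he₀ h₀

end Pool.Agent.L0h74.E3
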