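import Mathlib
import Pool.Agent.L0h74.E3.LX
import Pool.Agent.L0h1.F3S.Fin
import Pool.Agent.L0h75.IS.Tr

/-!
# The rank form for all the twists of `X_0(36)` of root number one whose matrix is not singular
-/

set_option autoImplicit false
set_option linter.unusedSectionVars false
set_option linter.unusedVariables false

open scoped Classical

namespace Pool.Agent.L0h74.E3

open Pool.Agent.L0h86.F1 (AdmM)
open Pool.Agent.L0h4.T4 (AdmC)
open Pool.Agent.L0h1.F3R (RZ RZ_three)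
open Pool.Agent.L0h1.F3S (RZ_M RZ_N RZ_C)
open Pool.Agent.L0h75.IS (RZ2 rz_scale)

theorem rz_rz2 {m : ℤ} (h : RZ m) : RZ2 0 (m ^ 3) := by
  obtain ⟨F, h1, h2, h3, h4⟩ := h
  exact ⟨F, h1, h2, h3, h4⟩

theorem rz2_mul {m : ℤ} (hm : m ≠ 0) (h : RZ m) {t : ℤ} (ht : t ≠ 0) {n : ℤ} (hn : n = m * t ^ 2) :
    RZ2 0 (n ^ 3) := by
  have h1 := rz_scale (a := 0) (b := m ^ 3) (e := t) (by
    have : (4 * (0 : ℤ) ^ 3 + 27 * (m ^ 3) ^ 2 : ℤ) = 27 * m ^ 6 := by ring
    rw [this]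
    exact mul_ne_zero (by norm_num) (pow_ne_zero _ hm)) ht (rz_rz2 h)
  have e1 : (0 : ℤ) * t ^ 4 = 0 := by ring
  have e2 : m ^ 3 * t ^ 6 = n ^ 3 := by rw [hn]; ring
  rw [e1, e2] at h1
  exact h1

/-- the signs -/
theorem sgn_cases {n : ℤ} {k : ℕ} (h : n.natAbs = k) : n = k ∨ n = -(k : ℤ) := by
  omega

/-- `2 m` -/
theorem adm_half {D : ℕ} (hsq : Squarefree D) (h3 : ¬ 3 ∣ D) (h2 : D % 2 = 0) :
    ∃ m : ℕ, D = 2 * m ∧ AdmC m := by
  obtain ⟨m, hm⟩ : 2 ∣ D := Nat.dvd_of_mod_eq_zero h2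
  refine ⟨m, hm, ?_, ?_, ?_⟩
  · exact hsq.squarefree_of_dvd ⟨2, by rw [hm]; ring⟩
  · by_contra hc
    have h4 : 2 * 2 ∣ D := by
      rw [hm]
      exact mul_dvd_mul_left 2 (by omega)
    have := hsq 2 h4
    rw [Nat.isUnit_iff] at this
    omega
  · intro h
    apply h3
    rw [hm]
    exact Dvd.dvd.mul_left h 2

/-- **the good twists** -/
theorem good36 {n : ℤ} (h : RootPlus n) (hc : Cr (Dn n)) : RZ2 0 (n ^ 3) := by
  obtain ⟨hn0, hcl⟩ := h
  obtain ⟨t, ht, hdec⟩ := Dn_decomp hn0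
  have ht' : (t : ℤ) ≠ 0 := by exact_mod_cast ht
  have hD0 : ((Dn n : ℕ) : ℤ) ≠ 0 := by exact_mod_cast (Dn_sq n).ne_zero
  rcases hcl with h4 | ⟨h2, hs⟩
  · have hA : AdmM (Dn n) := ⟨Dn_sq n, h4, Dn_three n⟩
    have hdet := (cr_odd (by omega)).1 hc
    rcases hdec with ⟨-, he⟩ | ⟨-, he⟩
    · rcases sgn_cases he with h5 | h5
      · refine rz2_mul hD0 (RZ_M hA hdet) ht' ?_
        push_cast at h5
        exact h5
      · refine rz2_mul (neg_ne_zero.2 hD0) (RZ_N hA hdet) ht' ?_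
        push_cast at h5
        linear_combination h5
    · rcases sgn_cases he with h5 | h5
      · refine rz2_mul ?_ (RZ_three (neg_ne_zero.2 hD0) (RZ_N hA hdet)) ht' ?_
        · exact mul_ne_zero (by norm_num) (neg_ne_zero.2 hD0)
        · push_cast at h5
          linear_combination h5
      · refine rz2_mul ?_ (RZ_three hD0 (RZ_M hA hdet)) ht' ?_
        · exact mul_ne_zero (by norm_num) hD0
        · push_cast at h5
          linear_combination h5
  · obtain ⟨m, hm, hA⟩ := adm_half (Dn_sq n) (Dn_three n) h2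
    have hdet := (cr_even h2).1 hc
    rw [hm] at hdet
    have hm0 : ((-2 * m : ℤ)) ≠ 0 := by
      have : (m : ℤ) ≠ 0 := by exact_mod_cast hA.sf.ne_zero
      exact mul_ne_zero (by norm_num) this
    have hDm : ((Dn n : ℕ) : ℤ) = 2 * m := by exact_mod_cast hm
    rcases hs with ⟨hneg, hev⟩ | ⟨hpos, hod⟩
    · rcases hdec with ⟨-, he⟩ | ⟨ho, -⟩
      · refine rz2_mul hm0 (RZ_C hA hdet) ht' ?_
        rcases sgn_cases he with h5 | h5
        · exfalso
          have : (0 : ℤ) ≤ ((Dn n * t ^ 2 : ℕ) : ℤ) := Int.natCast_nonneg _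
          omega
        · push_cast at h5
          rw [hDm] at h5
          linear_combination h5
      · exact absurd hev (Nat.not_even_iff_odd.2 ho)
    · rcases hdec with ⟨hev, -⟩ | ⟨-, he⟩
      · exact absurd hev (Nat.not_even_iff_odd.2 hod)
      · refine rz2_mul ?_ (RZ_three hm0 (RZ_C hA hdet)) ht' ?_
        · exact mul_ne_zero (by norm_num) hm0
        · rcases sgn_cases he with h5 | h5
          · push_cast at h5
            rw [hDm] at h5
            linear_combination h5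
          · exfalso
            have : (0 : ℤ) ≤ ((3 * Dn n * t ^ 2 : ℕ) : ℤ) := Int.natCast_nonneg _
            omega

/-- the 2-isogenous curve -/
theorem good36' {n : ℤ} (h : RootPlus n) (hc : Cr (Dn n)) : RZ2 (-15 * n ^ 2) (22 * n ^ 3) :=
  Pool.Agent.L0h75.IS.rz_three h.1 (good36 h hc)

end Pool.Agent.L0h74.E3
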