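import Mathlib
import Pool.Agent.L0h74.GF.Fin

/-!
# The law in the families of twists of `X_0(49)` with local conditions, for a general height
-/

set_option autoImplicit false
set_option maxHeartbeats 4000000
set_option linter.unusedSectionVars false
set_option linter.unusedVariables false

open scoped Classical

namespace Pool.Agent.L0h74.E3

open Filter Topology
open Pool.Agent.L0h74.AP
open Pool.Agent.L0h74.EV (QPw CritA NSA qpw_of critA_iff)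
open Pool.Agent.L0h4.TA (exists_w)
open Pool.Agent.L0h1.EV (TT tt_iff)
open Pool.Agent.Y703.CQ (c2)

theorem law49' {Qf Pf : ℕ → Finset ℕ} {w : ℕ → Pool.Agent.Y698.RR} (h : QPw Qf Pf w) {N : ℤ → ℕ} (hN : ∀ u, 4 ∣ u → HtFn u N) {d : ℤ} (hd : d ≠ 0) {S : Finset ℕ}
    (hS : ∀ p ∈ S, p.Prime) (inf : Prop) {e₀ : ℤ} (he₀ : Squarefree e₀)
    (h₀ : Pool.Agent.L0h74.AP.RootPlus (e₀ * d)) :
    Tendsto (fun X : ℕ => ((cnt N (fun e => Pool.Agent.L0h74.GF.Loc d e₀ S inf e ∧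
      TT (Pool.Agent.L0h74.AP.Dn (e * d))) X : ℕ) : ℝ) /
      ((cnt N (Pool.Agent.L0h74.GF.Loc d e₀ S inf) X : ℕ) : ℝ)) atTop (𝓝 (c2 / 2)) := by
  set u : ℕ := 56 * ((∏ p ∈ S, p) * d.natAbs) with hu
  have hP0 : 0 < ∏ p ∈ S, p := Finset.prod_pos fun p hp => (hS p hp).pos
  have hd0 : 0 < d.natAbs := Int.natAbs_pos.2 hd
  have hu0 : 0 < u := by positivity
  have h56 : 56 ∣ u := Dvd.intro _ rfl
  have h8 : 8 ∣ u := (by norm_num : 8 ∣ 56).trans h56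
  have h4 : 4 ∣ u := (by norm_num : 4 ∣ 56).trans h56
  have h7 : 7 ∣ u := (by norm_num : 7 ∣ 56).trans h56
  have hpu : ∀ p ∈ S, p ∣ u := fun p hp =>
    Dvd.dvd.mul_left (Dvd.dvd.mul_right (Finset.dvd_prod_of_mem (fun q : ℕ => q) hp) _) _
  have hdu : ∀ p, p.Prime → p ∣ d.natAbs → p ∣ u := fun p _ hp =>
    Dvd.dvd.mul_left (Dvd.dvd.mul_left hp _) _
  have hT : ClassFn u (Pool.Agent.L0h74.GF.Loc d e₀ S inf) := by
    have h1 : ClassFn u fun e => ∀ p ∈ S, ∀ _ : Fact p.Prime,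
        IsSquare (((e * e₀ : ℤ) : ℤ) : ℚ_[p]) :=
      ClassFn.all fun p => ClassFn.all fun hp => ClassFn.all fun hf =>
        classFn_loc (hp := hf) hu0 h8 p (hpu p hp) e₀
    have h2 : ClassFn u fun e => inf → 0 < e * e₀ := (classFn_const inf).imp (classFn_sign hu0 e₀)
    exact (classFn_root hu0 h7 hd).and (h1.and h2)
  have hT0 : Pool.Agent.L0h74.GF.Loc d e₀ S inf e₀ := by
    refine ⟨h₀, fun p _ _ => ⟨(e₀ : ℚ_[p]), by push_cast; ring⟩, fun _ => ?_⟩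
    exact mul_self_pos.2 he₀.ne_zero
  have key := main h h56 hu0 hd hdu (hN u h4) hT he₀ hT0
  refine key.congr fun X => ?_
  have e1 : (fun e => Pool.Agent.L0h74.GF.Loc d e₀ S inf e ∧ NSA Qf Pf w (Dn (e * d))) =
      fun e => Pool.Agent.L0h74.GF.Loc d e₀ S inf e ∧ TT (Dn (e * d)) := by
    funext e
    refine propext (and_congr_right fun _ => ?_)
    rw [← critA_iff h (Dn_sq _) (Dn_seven _)]
    exact (tt_iff h (Dn_sq _) (Dn_seven _)).symm
  rw [e1]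

/-- **the law in the families of twists of `X_0(49)` with local conditions** -/
theorem law49 {N : ℤ → ℕ} (hN : ∀ u, 4 ∣ u → HtFn u N) {d : ℤ} (hd : d ≠ 0) {S : Finset ℕ}
    (hS : ∀ p ∈ S, p.Prime) (inf : Prop) {e₀ : ℤ} (he₀ : Squarefree e₀)
    (h₀ : Pool.Agent.L0h74.AP.RootPlus (e₀ * d)) :
    Tendsto (fun X : ℕ => ((cnt N (fun e => Pool.Agent.L0h74.GF.Loc d e₀ S inf e ∧
      TT (Pool.Agent.L0h74.AP.Dn (e * d))) X : ℕ) : ℝ) /
      ((cnt N (Pool.Agent.L0h74.GF.Loc d e₀ S inf) X : ℕ) : ℝ)) atTop (𝓝 (c2 / 2)) := by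
  obtain ⟨w, hw⟩ := exists_w
  exact law49' (qpw_of hw) hN hd hS inf he₀ h₀

end Pool.Agent.L0h74.E3
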