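import Mathlib
import Pool.Agent.L0h74.E3.L49
import Pool.Agent.L0h75.IS.Tr

/-!
# The rank form for all the twists of `X_0(49)` of root number one whose matrix is not singular
-/

set_option autoImplicit false
set_option linter.unusedSectionVars false
set_option linter.unusedVariables false

open scoped Classical

namespace Pool.Agent.L0h74.E3

open Pool.Agent.L0h74.EV (QPw qpw_of)
open Pool.Agent.L0h4.TA (exists_w)
open Pool.Agent.L0h1.EV (TT tt_iff rank_all7)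
open Pool.Agent.L0h75.IS (RZ2 rz_scale rz_seven)

theorem rz2_mul7 {m : ℤ} (hm : m ≠ 0) (h : RZ2 (-35 * m ^ 2) (-98 * m ^ 3)) {t : ℤ} (ht : t ≠ 0)
    {n : ℤ} (hn : n = m * t ^ 2) : RZ2 (-35 * n ^ 2) (-98 * n ^ 3) := by
  have h1 := rz_scale (a := -35 * m ^ 2) (b := -98 * m ^ 3) (e := t) (by
    have : (4 * (-35 * m ^ 2) ^ 3 + 27 * (-98 * m ^ 3) ^ 2 : ℤ) = 87808 * m ^ 6 := by ring
    rw [this]
    exact mul_ne_zero (by norm_num) (pow_ne_zero _ hm)) ht h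
  have e1 : -35 * m ^ 2 * t ^ 4 = -35 * n ^ 2 := by rw [hn]; ring
  have e2 : -98 * m ^ 3 * t ^ 6 = -98 * n ^ 3 := by rw [hn]; ring
  rw [e1, e2] at h1
  exact h1

theorem good49' {Qf Pf : ℕ → Finset ℕ} {w : ℕ → Pool.Agent.Y698.RR} (hq : QPw Qf Pf w) {n : ℤ}
    (h : Pool.Agent.L0h74.AP.RootPlus n)
    (hc : TT (Pool.Agent.L0h74.AP.Dn n)) : RZ2 (-35 * n ^ 2) (-98 * n ^ 3) := by
  have hn0 : n ≠ 0 := by
    rcases h with h | h
    · exact h.1.ne'
    · exact h.1.ne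
  obtain ⟨t, ht, hdec⟩ := Pool.Agent.L0h74.AP.Dn_decomp hn0
  have ht' : (t : ℤ) ≠ 0 := by exact_mod_cast ht
  have hsf := Pool.Agent.L0h74.AP.Dn_sq n
  have h7 := Pool.Agent.L0h74.AP.Dn_seven n
  have hD0 : ((Pool.Agent.L0h74.AP.Dn n : ℕ) : ℤ) ≠ 0 := by exact_mod_cast hsf.ne_zero
  have hC := (tt_iff hq hsf h7).1 hc
  rcases h with ⟨hpos, hev⟩ | ⟨hneg, hod⟩
  · rcases hdec with ⟨-, he⟩ | ⟨ho, -⟩
    · refine rz2_mul7 hD0 (rank_all7 hq hsf h7 hC (Or.inl rfl)) ht' ?_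
      have h5 : (n.natAbs : ℤ) = n := Int.natAbs_of_nonneg hpos.le
      rw [he] at h5
      push_cast at h5
      exact h5.symm
    · exact absurd hev (Nat.not_even_iff_odd.2 ho)
  · rcases hdec with ⟨he, -⟩ | ⟨-, he⟩
    · exact absurd he (Nat.not_even_iff_odd.2 hod)
    · refine rz2_mul7 (m := -7 * (Pool.Agent.L0h74.AP.Dn n : ℤ)) (mul_ne_zero (by norm_num) hD0)
        (rank_all7 hq hsf h7 hC (Or.inr rfl)) ht' ?_
      have h5 : (n.natAbs : ℤ) = -n := by omega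
      rw [he] at h5
      push_cast at h5
      linear_combination h5

/-- **the good twists** -/
theorem good49 {n : ℤ} (h : Pool.Agent.L0h74.AP.RootPlus n)
    (hc : TT (Pool.Agent.L0h74.AP.Dn n)) : RZ2 (-35 * n ^ 2) (-98 * n ^ 3) := by
  obtain ⟨w, hw⟩ := exists_w
  exact good49' (qpw_of hw) h hc

theorem good49s {n : ℤ} (h : Pool.Agent.L0h74.AP.RootPlus n)
    (hc : TT (Pool.Agent.L0h74.AP.Dn n)) : RZ2 (-595 * n ^ 2) (-5586 * n ^ 3) := by
  have hn0 : n ≠ 0 := by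
    rcases h with h | h
    · exact h.1.ne'
    · exact h.1.ne
  exact rz_seven hn0 (good49 h hc)

end Pool.Agent.L0h74.E3
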